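import Mathlib

/-!
# A type B counterexample: the complex hyperbolic triangle group (14,14,14)

We work with the Hermitian form `⟨z, w⟩ = z₁ w̄₁ + z₂ w̄₂ - z₃ w̄₃` on `ℂ³`.  A complex line of the
complex hyperbolic plane is given by a polar vector `n` with `⟨n, n⟩ = 1`, the complex reflection
of order two in it is the class of `z ↦ -z + 2 ⟨z, n⟩ n`, and two such lines with polar vectors
`n, n'` meet at the angle `π/p` if and only if `|⟨n, n'⟩| = cos (π/p)`.

Up to conjugation a `(p,q,r)` triangle group is determined by the argument `t` of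
`- ⟨n₁, n₂⟩ ⟨n₂, n₃⟩ ⟨n₃, n₁⟩`, which is the parameter that we use; `t = 0` is the case in which a
real plane is preserved.

For `(p,q,r) = (14,14,14)` there is a parameter `t` for which `I₁ I₂ I₃` is elliptic of order 14
and `I₁ I₂ I₃ I₂` is loxodromic and for which the group is arithmetic.  Indeed its matrices in the
basis of (rescaled) polar vectors have integral entries in `ℚ(u, ω)`, `u = 2 cos (π/7)`,
`ω = e^{2πi/3}`, and the Hermitian form is definite at all the embeddings that do not fix `u`.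
-/

open ComplexConjugate Matrix Topology

noncomputable section

namespace Pool.Agent.Results.MP_068809_gt.TypeBCounterexample

/-- The space `ℂ³` (homogeneous coordinates). -/
abbrev C3 : Type := Fin 3 → ℂ

/-- The Hermitian form of signature `(2,1)`. -/
def herm (z w : C3) : ℂ := z 0 * conj (w 0) + z 1 * conj (w 1) - z 2 * conj (w 2)

/-- The group `U(2,1)`. -/
def U21 : Subgroup (GL (Fin 3) ℂ) where
  carrier := {A | ∀ z w : C3, herm (A.1 *ᵥ z) (A.1 *ᵥ w) = herm z w}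
  mul_mem' := by
    intro A B hA hB z w
    have h1 : ∀ z : C3, (A * B).1 *ᵥ z = A.1 *ᵥ (B.1 *ᵥ z) := by
      intro z
      rw [Matrix.mulVec_mulVec]
      rfl
    rw [h1, h1, hA, hB]
  one_mem' := by
    intro z w
    simp
  inv_mem' := by
    intro A hA z w
    have h1 : ∀ z : C3, A.1 *ᵥ (A⁻¹.1 *ᵥ z) = z := by
      intro z
      rw [Matrix.mulVec_mulVec]
      have : A.1 * A⁻¹.1 = 1 := A.mul_inv
      rw [this, Matrix.one_mulVec]
    have h2 := hA (A⁻¹.1 *ᵥ z) (A⁻¹.1 *ᵥ w)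
    rw [h1, h1] at h2
    exact h2.symm

/-- The matrix of an element of `U(2,1)`. -/
def mat (A : U21) : Matrix (Fin 3) (Fin 3) ℂ := A.1.1

lemma mat_mul (A B : U21) : mat (A * B) = mat A * mat B := rfl

lemma mat_one : mat 1 = 1 := rfl

lemma mat_pow (A : U21) (m : ℕ) : mat (A ^ m) = mat A ^ m := by
  induction m with
  | zero => rfl
  | succ k ih => rw [pow_succ, mat_mul, ih, pow_succ]

lemma mat_mul_inv (A : U21) : mat A * mat A⁻¹ = 1 := A.1.mul_inv

/-- The subgroup of scalar matrices in `U(2,1)`. -/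
def scalars : Subgroup U21 where
  carrier := {A | ∃ c : ℂ, mat A = c • (1 : Matrix (Fin 3) (Fin 3) ℂ)}
  mul_mem' := by
    rintro A B ⟨a, ha⟩ ⟨b, hb⟩
    refine ⟨a * b, ?_⟩
    rw [mat_mul, ha, hb]
    simp [smul_smul, mul_comm]
  one_mem' := ⟨1, by simp [mat_one]⟩
  inv_mem' := by
    rintro A ⟨a, ha⟩
    have h1 := mat_mul_inv A
    rw [ha] at h1
    have ha0 : a ≠ 0 := by
      rintro rfl
      simp at h1
    refine ⟨a⁻¹, ?_⟩
    have h2 : a • mat A⁻¹ = 1 := by
      simpa using h1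
    rw [← h2, smul_smul, inv_mul_cancel₀ ha0, one_smul]

instance : scalars.Normal where
  conj_mem := by
    rintro A ⟨a, ha⟩ B
    refine ⟨a, ?_⟩
    rw [mat_mul, mat_mul, ha]
    simp [mat_mul_inv]

/-- The projective unitary group `PU(2,1)`, with its quotient topology. -/
abbrev PU21 : Type := U21 ⧸ scalars

/-- `g` is the complex reflection of order two in the complex line polar to the vector `n`
(where `⟨n, n⟩ = 1`): it is the class of `z ↦ -z + 2 ⟨z, n⟩ n`. -/
def IsReflectionIn (g : PU21) (n : C3) : Prop :=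
  ∃ A : U21, (QuotientGroup.mk A : PU21) = g ∧
    ∀ z : C3, mat A *ᵥ z = -z + (2 * herm z n) • n

/-- `g` is elliptic: it fixes a point of the complex hyperbolic plane, i.e. a negative line. -/
def IsElliptic (g : PU21) : Prop :=
  ∃ A : U21, (QuotientGroup.mk A : PU21) = g ∧
    ∃ v : C3, (herm v v).re < 0 ∧ ∃ c : ℂ, mat A *ᵥ v = c • v

/-- The relators of the triangle group `Γ(p,q,r)`. -/
def triangleRels (p q r : ℕ) : Set (FreeGroup (Fin 3)) :=
  {FreeGroup.of 0 ^ 2, FreeGroup.of 1 ^ 2, FreeGroup.of 2 ^ 2,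
    (FreeGroup.of 0 * FreeGroup.of 1) ^ p, (FreeGroup.of 1 * FreeGroup.of 2) ^ q,
    (FreeGroup.of 2 * FreeGroup.of 0) ^ r}

/-- The triangle group `Γ(p,q,r)`. -/
abbrev TriangleGroup (p q r : ℕ) : Type := PresentedGroup (triangleRels p q r)

/-- The generator `σ_{k+1}` of the triangle group. -/
def sigma {p q r : ℕ} (k : Fin 3) : TriangleGroup p q r := PresentedGroup.of k

/-- `W_A = σ₁ σ₂ σ₃ σ₂`. -/
def WA (p q r : ℕ) : TriangleGroup p q r := sigma 0 * sigma 1 * sigma 2 * sigma 1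

/-- `W_B = σ₁ σ₂ σ₃`. -/
def WB (p q r : ℕ) : TriangleGroup p q r := sigma 0 * sigma 1 * sigma 2

/-- `ρ` is a complex hyperbolic `(p,q,r)` triangle group with angular invariant `t`: the
generators go to complex reflections of order two in complex lines with unit polar vectors
`n 0, n 1, n 2`, the lines meet at the angles `π/p`, `π/q`, `π/r`, and
`⟨n 0, n 1⟩ ⟨n 1, n 2⟩ ⟨n 2, n 0⟩ = - cos(π/p) cos(π/q) cos(π/r) e^{it}`. -/
def IsTriangleRep (p q r : ℕ) (t : ℝ) (ρ : TriangleGroup p q r →* PU21) : Prop :=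
  ∃ n : Fin 3 → C3, (∀ k, herm (n k) (n k) = 1) ∧
    ‖herm (n 0) (n 1)‖ = Real.cos (Real.pi / p) ∧
    ‖herm (n 1) (n 2)‖ = Real.cos (Real.pi / q) ∧
    ‖herm (n 2) (n 0)‖ = Real.cos (Real.pi / r) ∧
    herm (n 0) (n 1) * herm (n 1) (n 2) * herm (n 2) (n 0) =
      -(Real.cos (Real.pi / p) * Real.cos (Real.pi / q) * Real.cos (Real.pi / r) : ℝ) *
        Complex.exp (t * Complex.I) ∧
    ∀ k, IsReflectionIn (ρ (sigma k)) (n k)

/-- The parameter set `I_{p,q,r}`. -/
def paramSet (p q r : ℕ) : Set ℝ :=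
  {t | |t| ≤ Real.pi ∧ ∃ ρ : TriangleGroup p q r →* PU21, IsTriangleRep p q r t ρ}

/-- `ρ_t(w)` is elliptic. -/
def EllipticAt {p q r : ℕ} (w : TriangleGroup p q r) (t : ℝ) : Prop :=
  ∃ ρ : TriangleGroup p q r →* PU21, IsTriangleRep p q r t ρ ∧ IsElliptic (ρ w)

/-- The parameter set `I⁰_{p,q,r}`: neither `ρ_t(W_A)` nor `ρ_t(W_B)` is elliptic. -/
def paramSet0 (p q r : ℕ) : Set ℝ :=
  {t ∈ paramSet p q r | ¬ EllipticAt (WA p q r) t ∧ ¬ EllipticAt (WB p q r) t}

/-- Type A: as `t` increases from `0`, `ρ_t(W_A)` becomes elliptic strictly before `ρ_t(W_B)`: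
for some `t ≥ 0` the element `ρ_t(W_A)` is elliptic, and `ρ_s(W_B)` is not elliptic for
all `0 ≤ s ≤ t`. -/
def IsTypeA (p q r : ℕ) : Prop :=
  ∃ t ∈ paramSet p q r, 0 ≤ t ∧ EllipticAt (WA p q r) t ∧
    ∀ s ∈ paramSet p q r, 0 ≤ s → s ≤ t → ¬ EllipticAt (WB p q r) s

/-- Type B: not type A. -/
def IsTypeB (p q r : ℕ) : Prop := ¬ IsTypeA p q r

/-! ### Linear algebra -/

lemma herm_add_left (a b w : C3) : herm (a + b) w = herm a w + herm b w := by
  simp [herm]; ring

lemma herm_smul_left (c : ℂ) (a w : C3) : herm (c • a) w = c * herm a w := by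
  simp [herm]; ring

lemma herm_neg_left (a w : C3) : herm (-a) w = -herm a w := by
  simp [herm]; ring

lemma herm_conj (a b : C3) : conj (herm a b) = herm b a := by
  simp [herm]; ring

lemma herm_add_right (w a b : C3) : herm w (a + b) = herm w a + herm w b := by
  simp [herm]; ring

lemma herm_smul_right (c : ℂ) (w a : C3) : herm w (c • a) = conj c * herm w a := by
  simp [herm]; ring

lemma herm_neg_right (w a : C3) : herm w (-a) = -herm w a := by
  simp [herm]; ring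

/-- The matrix of the reflection in the unit vector `n`. -/
def reflMat (n : C3) : Matrix (Fin 3) (Fin 3) ℂ :=
  -1 + (2 : ℂ) • Matrix.of fun i j => n i * (![1, 1, -1] j * conj (n j))

lemma reflMat_mulVec (n z : C3) : reflMat n *ᵥ z = -z + (2 * herm z n) • n := by
  ext i
  simp only [reflMat, Matrix.add_mulVec, Matrix.neg_mulVec, Matrix.one_mulVec,
    Matrix.smul_mulVec, Pi.add_apply, Pi.neg_apply, Pi.smul_apply, smul_eq_mul, herm]
  simp only [Matrix.mulVec, dotProduct, Matrix.of_apply, Fin.sum_univ_three]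
  simp
  ring

lemma refl_sq {n : C3} (hn : herm n n = 1) (z : C3) :
    -(-z + (2 * herm z n) • n) + (2 * herm (-z + (2 * herm z n) • n) n) • n = z := by
  have h : herm (-z + (2 * herm z n) • n) n = herm z n := by
    rw [herm_add_left, herm_neg_left, herm_smul_left, hn]
    ring
  rw [h]
  simp

lemma reflMat_sq {n : C3} (hn : herm n n = 1) : reflMat n * reflMat n = 1 := by
  have h : ∀ z : C3, (reflMat n * reflMat n) *ᵥ z = (1 : Matrix (Fin 3) (Fin 3) ℂ) *ᵥ z := by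
    intro z
    rw [← Matrix.mulVec_mulVec, reflMat_mulVec, reflMat_mulVec, refl_sq hn, Matrix.one_mulVec]
  exact Matrix.toLin'.injective (LinearMap.ext fun z => by simpa using h z)

lemma reflMat_isometry {n : C3} (hn : herm n n = 1) (z w : C3) :
    herm (reflMat n *ᵥ z) (reflMat n *ᵥ w) = herm z w := by
  rw [reflMat_mulVec, reflMat_mulVec, herm_add_left, herm_add_right, herm_add_right,
    herm_neg_left, herm_neg_left, herm_neg_right, herm_smul_left, herm_smul_left,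
    herm_smul_right, herm_neg_right, herm_smul_right, hn, map_mul, herm_conj, map_ofNat]
  ring

/-- The reflection in the unit vector `n` as an element of `U(2,1)`. -/
def refl (n : C3) (hn : herm n n = 1) : U21 :=
  ⟨⟨reflMat n, reflMat n, reflMat_sq hn, reflMat_sq hn⟩, reflMat_isometry hn⟩

lemma mat_refl (n : C3) (hn : herm n n = 1) : mat (refl n hn) = reflMat n := rfl

lemma mat_injective : Function.Injective mat := by
  intro A B h
  exact Subtype.ext (Units.ext h)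

/-- If `A` and `B` have the same class in `PU(2,1)`, they differ by a scalar. -/
lemma exists_smul_of_mk_eq {A B : U21} (h : (QuotientGroup.mk A : PU21) = QuotientGroup.mk B) :
    ∃ c : ℂ, mat A = c • mat B := by
  rw [QuotientGroup.eq] at h
  obtain ⟨c, hc⟩ := h
  have h1 : mat B = c • mat A := by
    have : mat A * mat (A⁻¹ * B) = mat B := by
      rw [← mat_mul, mul_inv_cancel_left]
    rw [← this, hc]
    simp
  have hc0 : c ≠ 0 := by
    rintro rfl
    have h2 := mat_mul_inv B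
    rw [h1] at h2
    simp at h2
  exact ⟨c⁻¹, by rw [h1, smul_smul, inv_mul_cancel₀ hc0, one_smul]⟩

/-- A reflection in the sense of `IsReflectionIn` is the class of `refl`. -/
lemma IsReflectionIn.eq {g : PU21} {n : C3} (hn : herm n n = 1) (h : IsReflectionIn g n) :
    g = QuotientGroup.mk (refl n hn) := by
  obtain ⟨A, hA, hAn⟩ := h
  rw [← hA]
  congr 1
  apply mat_injective
  rw [mat_refl]
  refine Matrix.toLin'.injective (LinearMap.ext fun z => ?_)
  simp only [Matrix.toLin'_apply]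
  rw [hAn, reflMat_mulVec]

/-- unitary scalars have modulus one -/
lemma norm_eq_one_of_smul {A B : U21} {c : ℂ} (h : mat A = c • mat B) : ‖c‖ = 1 := by
  have h1 := A.2 (mat B⁻¹ *ᵥ ![1, 0, 0]) (mat B⁻¹ *ᵥ ![1, 0, 0])
  have h2 : A.1.1 *ᵥ (mat B⁻¹ *ᵥ ![1, 0, 0]) = c • ![1, 0, 0] := by
    have : A.1.1 = c • mat B := h
    rw [this, Matrix.smul_mulVec, Matrix.mulVec_mulVec, mat_mul_inv, Matrix.one_mulVec]
  have h3 := (B⁻¹).2 ![1, 0, 0] ![1, 0, 0]
  have h4 : (B⁻¹).1.1 = mat B⁻¹ := rfl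
  rw [h4] at h3
  rw [h2, h3, herm_smul_left, herm_smul_right] at h1
  have h5 : herm ![1, 0, 0] ![1, 0, 0] = 1 := by simp [herm]
  rw [h5, mul_one, Complex.mul_conj, Complex.normSq_eq_norm_sq] at h1
  have h6 : ‖c‖ ^ 2 = 1 := by exact_mod_cast h1
  nlinarith [norm_nonneg c]

/-- A matrix all of whose eigenvalues have modulus one has trace at most three in modulus. -/
lemma norm_trace_le {M : Matrix (Fin 3) (Fin 3) ℂ}
    (h : ∀ (μ : ℂ) (v : C3), v ≠ 0 → M *ᵥ v = μ • v → ‖μ‖ = 1) : ‖M.trace‖ ≤ 3 := by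
  have hs : M.trace = (M.charpoly.roots).sum :=
    Matrix.trace_eq_sum_roots_charpoly_of_splits (IsAlgClosed.splits _)
  have hroot : ∀ μ ∈ M.charpoly.roots, ‖μ‖ = 1 := by
    intro μ hμ
    have h1 : M.charpoly.eval μ = 0 := (Polynomial.mem_roots'.1 hμ).2
    rw [Matrix.eval_charpoly] at h1
    obtain ⟨v, hv, hv2⟩ := Matrix.exists_mulVec_eq_zero_iff.2 h1
    refine h μ v hv ?_
    rw [Matrix.sub_mulVec, sub_eq_zero] at hv2
    rw [← hv2]
    simp [Matrix.scalar_apply]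
  rw [hs]
  have hcard : Multiset.card M.charpoly.roots ≤ 3 := by
    have h1 := Polynomial.card_roots' M.charpoly
    rw [Matrix.charpoly_natDegree_eq_dim] at h1
    simpa using h1
  calc ‖(M.charpoly.roots).sum‖ ≤ ((M.charpoly.roots).map fun x => ‖x‖).sum :=
        norm_multiset_sum_le _
    _ ≤ Multiset.card ((M.charpoly.roots).map fun x => ‖x‖) • (1 : ℝ) := by
        refine Multiset.sum_le_card_nsmul _ _ ?_
        intro x hx
        obtain ⟨μ, hμ, rfl⟩ := Multiset.mem_map.1 hx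
        exact (hroot μ hμ).le
    _ ≤ 3 := by
        rw [Multiset.card_map, nsmul_eq_mul, mul_one]
        exact_mod_cast hcard

lemma herm_self (z : C3) : herm z z = ((‖z 0‖ ^ 2 + ‖z 1‖ ^ 2 - ‖z 2‖ ^ 2 : ℝ) : ℂ) := by
  simp only [herm, Complex.mul_conj, Complex.normSq_eq_norm_sq]
  push_cast
  ring

/-- A negative vector is not orthogonal to a nonzero null vector. -/
lemma herm_ne_zero {v w : C3} (hv : (herm v v).re < 0) (hw : herm w w = 0) (hw0 : w ≠ 0) :
    herm w v ≠ 0 := by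
  intro h
  rw [herm_self, Complex.ofReal_re] at hv
  rw [herm_self] at hw
  have hw' : ‖w 0‖ ^ 2 + ‖w 1‖ ^ 2 - ‖w 2‖ ^ 2 = 0 := by exact_mod_cast hw
  have h1 : w 2 * conj (v 2) = w 0 * conj (v 0) + w 1 * conj (v 1) := by
    simp only [herm] at h
    linear_combination -h
  have h2 : ‖w 2‖ * ‖v 2‖ ≤ ‖w 0‖ * ‖v 0‖ + ‖w 1‖ * ‖v 1‖ := by
    have h3 := congrArg norm h1
    rw [norm_mul, RCLike.norm_conj] at h3
    rw [h3]
    refine (norm_add_le _ _).trans ?_
    rw [norm_mul, norm_mul, RCLike.norm_conj, RCLike.norm_conj]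
  have hw2 : 0 < ‖w 2‖ := by
    rw [norm_pos_iff]
    intro h2
    rw [h2, norm_zero] at hw'
    have h0 : ‖w 0‖ = 0 := by nlinarith [norm_nonneg (w 0), norm_nonneg (w 1)]
    have h1' : ‖w 1‖ = 0 := by nlinarith [norm_nonneg (w 0), norm_nonneg (w 1)]
    apply hw0
    ext i
    fin_cases i
    · simpa using h0
    · simpa using h1'
    · simpa using h2
  have h4 : (‖w 2‖ * ‖v 2‖) ^ 2 ≤ (‖w 0‖ * ‖v 0‖ + ‖w 1‖ * ‖v 1‖) ^ 2 :=
    pow_le_pow_left₀ (by positivity) h2 2
  have h5 : (‖w 0‖ * ‖v 0‖ + ‖w 1‖ * ‖v 1‖) ^ 2 ≤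
      (‖w 0‖ ^ 2 + ‖w 1‖ ^ 2) * (‖v 0‖ ^ 2 + ‖v 1‖ ^ 2) := by
    nlinarith [sq_nonneg (‖w 0‖ * ‖v 1‖ - ‖w 1‖ * ‖v 0‖)]
  have h6 : ‖w 0‖ ^ 2 + ‖w 1‖ ^ 2 = ‖w 2‖ ^ 2 := by linarith
  rw [h6] at h5
  have h7 : ‖w 2‖ ^ 2 * ‖v 2‖ ^ 2 ≤ ‖w 2‖ ^ 2 * (‖v 0‖ ^ 2 + ‖v 1‖ ^ 2) := by
    calc ‖w 2‖ ^ 2 * ‖v 2‖ ^ 2 = (‖w 2‖ * ‖v 2‖) ^ 2 := by ring
      _ ≤ _ := h4.trans h5
  have h8 : ‖v 2‖ ^ 2 ≤ ‖v 0‖ ^ 2 + ‖v 1‖ ^ 2 :=
    le_of_mul_le_mul_left h7 (by positivity)
  linarith

/-- The trace of an element of `U(2,1)` fixing a negative line is at most three in modulus. -/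
lemma norm_trace_le_of_negative {A : U21} {v : C3} (hv : (herm v v).re < 0) {c : ℂ}
    (hc : mat A *ᵥ v = c • v) : ‖(mat A).trace‖ ≤ 3 := by
  have hA : ∀ z w : C3, herm (mat A *ᵥ z) (mat A *ᵥ w) = herm z w := A.2
  have hv0 : herm v v ≠ 0 := by
    intro h
    rw [h] at hv
    simp at hv
  have hcc : c * conj c = 1 := by
    have h1 := hA v v
    rw [hc, herm_smul_left, herm_smul_right] at h1
    have h2 : (c * conj c - 1) * herm v v = 0 := by linear_combination h1
    rcases mul_eq_zero.1 h2 with h3 | h3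
    · linear_combination h3
    · exact absurd h3 hv0
  have hnorm : ∀ x : ℂ, x * conj x = 1 → ‖x‖ = 1 := by
    intro x hx
    rw [Complex.mul_conj, Complex.normSq_eq_norm_sq] at hx
    have h6 : ‖x‖ ^ 2 = 1 := by exact_mod_cast hx
    nlinarith [norm_nonneg x]
  refine norm_trace_le fun μ w hw hμ => ?_
  by_cases hww : herm w w = 0
  · have h1 := hA w v
    rw [hμ, hc, herm_smul_left, herm_smul_right] at h1
    have h2 : (μ * conj c - 1) * herm w v = 0 := by linear_combination h1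
    rcases mul_eq_zero.1 h2 with h3 | h3
    · have h4 : μ * conj c = 1 := by linear_combination h3
      have h5 := congrArg norm h4
      rw [norm_mul, RCLike.norm_conj, hnorm c hcc, mul_one, norm_one] at h5
      exact h5
    · exact absurd h3 (herm_ne_zero hv hww hw)
  · have h1 := hA w w
    rw [hμ, herm_smul_left, herm_smul_right] at h1
    have h2 : (μ * conj μ - 1) * herm w w = 0 := by linear_combination h1
    rcases mul_eq_zero.1 h2 with h3 | h3
    · exact hnorm μ (by linear_combination h3)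
    · exact absurd h3 hww

/-- If some power of `A` is scalar then the trace of `A` is at most three in modulus. -/
lemma norm_trace_le_of_pow {A : U21} {m : ℕ} (hm : m ≠ 0) {c : ℂ}
    (hc : mat (A ^ m) = c • (1 : Matrix (Fin 3) (Fin 3) ℂ)) : ‖(mat A).trace‖ ≤ 3 := by
  have hc1 : ‖c‖ = 1 := by
    apply norm_eq_one_of_smul (A := A ^ m) (B := 1)
    rw [hc, mat_one]
  have hpow : mat (A ^ m) = mat A ^ m := mat_pow A m
  refine norm_trace_le fun μ w hw hμ => ?_
  have h1 : ∀ k : ℕ, (mat A ^ k) *ᵥ w = μ ^ k • w := by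
    intro k
    induction k with
    | zero => simp
    | succ k ih =>
      rw [pow_succ', ← Matrix.mulVec_mulVec, ih, Matrix.mulVec_smul, hμ, smul_smul, pow_succ]
  have h2 := h1 m
  rw [← hpow, hc, Matrix.smul_mulVec, Matrix.one_mulVec] at h2
  have h3 : (c - μ ^ m) • w = 0 := by rw [sub_smul, h2, sub_self]
  have h4 : c = μ ^ m := by
    rcases smul_eq_zero.1 h3 with h5 | h5
    · exact sub_eq_zero.1 h5
    · exact absurd h5 hw
  have h5 : ‖μ‖ ^ m = 1 := by rw [← norm_pow, ← h4, hc1]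
  exact (pow_eq_one_iff_of_nonneg (norm_nonneg μ) hm).1 h5

/-! ### The numbers -/

/-- `u = 2 cos (π/7)`. -/
def uR : ℝ := 2 * Real.cos (Real.pi / 7)

lemma uR_cubic : uR ^ 3 - uR ^ 2 - 2 * uR + 1 = 0 := by
  -- `z = e^{iπ/7}`, `z^7 = -1`
  set z : ℂ := Complex.exp (((Real.pi / 7 : ℝ) : ℂ) * Complex.I) with hz
  have hz7 : z ^ 7 = -1 := by
    rw [hz, ← Complex.exp_nat_mul]
    have : ((7 : ℕ) : ℂ) * (((Real.pi / 7 : ℝ) : ℂ) * Complex.I) = Real.pi * Complex.I := by
      push_cast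
      ring
    rw [this, Complex.exp_pi_mul_I]
  have hz1 : z ≠ 0 := Complex.exp_ne_zero _
  have hzm : z + 1 ≠ 0 := by
    intro h
    have h1 : z.re = -1 := by
      have : z = -1 := by linear_combination h
      rw [this]; simp
    rw [hz, Complex.exp_ofReal_mul_I_re] at h1
    have h2 : 0 < Real.cos (Real.pi / 7) := by
      apply Real.cos_pos_of_mem_Ioo
      constructor <;> linarith [Real.pi_pos]
    linarith
  have hu : (uR : ℂ) = z + z⁻¹ := by
    have h1 : z⁻¹ = Complex.exp (-((Real.pi / 7 : ℝ) : ℂ) * Complex.I) := by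
      rw [hz, ← Complex.exp_neg]
      congr 1
      ring
    rw [h1, hz, uR]
    push_cast
    rw [Complex.two_cos]
  have hpoly : z ^ 6 - z ^ 5 + z ^ 4 - z ^ 3 + z ^ 2 - z + 1 = 0 := by
    have h1 : (z + 1) * (z ^ 6 - z ^ 5 + z ^ 4 - z ^ 3 + z ^ 2 - z + 1) = 0 := by
      linear_combination hz7
    exact (mul_eq_zero.1 h1).resolve_left hzm
  have h2 : ((uR ^ 3 - uR ^ 2 - 2 * uR + 1 : ℝ) : ℂ) = 0 := by
    push_cast
    rw [hu]
    field_simp
    linear_combination hpoly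
  exact_mod_cast h2

lemma uR_gt : Real.sqrt 3 < uR := by
  have h1 : Real.cos (Real.pi / 6) < Real.cos (Real.pi / 7) := by
    apply Real.cos_lt_cos_of_nonneg_of_le_pi
    · positivity
    · linarith [Real.pi_pos]
    · linarith [Real.pi_pos]
  rw [Real.cos_pi_div_six] at h1
  rw [uR]
  linarith

lemma uR_lt : uR < 2 := by
  have h1 : Real.cos (Real.pi / 7) < Real.cos 0 := by
    apply Real.cos_lt_cos_of_nonneg_of_le_pi
    · positivity
    · linarith [Real.pi_pos]
    · linarith [Real.pi_pos]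
  rw [Real.cos_zero] at h1
  rw [uR]
  linarith

lemma uR_sq_gt : 3 < uR ^ 2 := by
  have h := uR_gt
  have h1 : (Real.sqrt 3) ^ 2 = 3 := Real.sq_sqrt (by norm_num)
  have h2 : 0 ≤ Real.sqrt 3 := Real.sqrt_nonneg 3
  nlinarith

lemma uR_gt_one : 1 < uR := by
  nlinarith [uR_sq_gt, uR_lt, uR_gt, Real.sqrt_nonneg 3]

lemma four_cos_sq : 4 * Real.cos (Real.pi / 14) ^ 2 = 2 + uR := by
  have h := Real.cos_sq (Real.pi / 14)
  have h2 : 2 * (Real.pi / 14) = Real.pi / 7 := by ring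
  rw [h2] at h
  rw [uR, h]
  ring

lemma cos14_pos : 0 < Real.cos (Real.pi / 14) := by
  apply Real.cos_pos_of_mem_Ioo
  constructor <;> linarith [Real.pi_pos]

/-- The primitive cube root of unity `ω = e^{2πi/3}`. -/
def om : ℂ := ⟨-1 / 2, Real.sqrt 3 / 2⟩

lemma om_eq : om ^ 2 + om + 1 = 0 := by
  have h1 : (Real.sqrt 3) * (Real.sqrt 3) = 3 := Real.mul_self_sqrt (by norm_num)
  apply Complex.ext
  · simp [om, pow_two]
    nlinarith
  · simp [om, pow_two]
    ring

lemma conj_om : conj om = om ^ 2 := by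
  have h1 : (Real.sqrt 3) * (Real.sqrt 3) = 3 := Real.mul_self_sqrt (by norm_num)
  apply Complex.ext
  · simp [om, pow_two]
    nlinarith
  · simp [om, pow_two]
    ring

/-- Any root of `w² + w + 1` is `ω` or `conj ω`. -/
lemma root_cases {w : ℂ} (hw : w ^ 2 + w + 1 = 0) : w = om ∨ w = om ^ 2 := by
  have h1 : (w - om) * (w - om ^ 2) = 0 := by
    have := om_eq
    grind
  rcases mul_eq_zero.1 h1 with h | h
  · left; exact sub_eq_zero.1 h
  · right; exact sub_eq_zero.1 h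

/-- The other roots of the cubic are real numbers in `(-2, 1)`. -/
lemma cubic_root_cases {x : ℂ} (hx : x ^ 3 - x ^ 2 - 2 * x + 1 = 0) :
    x = (uR : ℂ) ∨ ∃ r : ℝ, x = r ∧ -2 < r ∧ r < 1 := by
  have hu : (uR : ℂ) ^ 3 - (uR : ℂ) ^ 2 - 2 * uR + 1 = 0 := by exact_mod_cast uR_cubic
  have h1 : (x - uR) * (x ^ 2 + (uR - 1) * x + (uR ^ 2 - uR - 2)) = 0 := by
    linear_combination hx - hu
  rcases mul_eq_zero.1 h1 with h | h
  · left; exact sub_eq_zero.1 h
  · right
    have hd : 0 < -3 * uR ^ 2 + 2 * uR + 9 := by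
      nlinarith [uR_lt, uR_gt_one]
    set s := Real.sqrt (-3 * uR ^ 2 + 2 * uR + 9) with hs
    have hs2 : s ^ 2 = -3 * uR ^ 2 + 2 * uR + 9 := Real.sq_sqrt hd.le
    have hs2' : (s : ℂ) ^ 2 = -3 * (uR : ℂ) ^ 2 + 2 * uR + 9 := by exact_mod_cast hs2
    have h2 : (x - ((1 - uR + s) / 2 : ℝ)) * (x - ((1 - uR - s) / 2 : ℝ)) = 0 := by
      push_cast
      linear_combination h - hs2' / 4
    have key : ∀ r : ℝ, r ^ 2 + (uR - 1) * r + (uR ^ 2 - uR - 2) = 0 → -2 < r ∧ r < 1 := by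
      intro r hr
      have h3 := uR_sq_gt
      have h4 := uR_lt
      have h5 := uR_gt_one
      constructor
      · by_contra hcon
        rw [not_lt] at hcon
        nlinarith [sq_nonneg (r + 2), mul_nonneg (sub_nonneg.2 h5.le) (neg_nonneg.2 (by linarith : r + 2 ≤ 0))]
      · by_contra hcon
        rw [not_lt] at hcon
        nlinarith [sq_nonneg (r - 1), mul_nonneg (sub_nonneg.2 h5.le) (by linarith : 0 ≤ r - 1)]
    rcases mul_eq_zero.1 h2 with h3 | h3
    · refine ⟨(1 - uR + s) / 2, sub_eq_zero.1 h3, key _ ?_⟩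
      nlinarith
    · refine ⟨(1 - uR - s) / 2, sub_eq_zero.1 h3, key _ ?_⟩
      nlinarith

/-! ### The matrices of the group in the basis of polar vectors -/

section Gen

variable {R S : Type*} [CommRing R] [CommRing S]

/-- The number `P = 1 + (x² - 1) w`. -/
def Pf (x w : R) : R := 1 + (x ^ 2 - 1) * w

/-- The number `Q = 1 + (x² - 1) w²`. -/
def Qf (x w : R) : R := 1 + (x ^ 2 - 1) * w ^ 2

/-- Twice the Gram matrix. -/
def gram (x w : R) : Matrix (Fin 3) (Fin 3) R :=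
  !![2, Qf x w, -(w ^ 2 * Pf x w); Pf x w, 2, Qf x w; -(w * Qf x w), Pf x w, 2]

/-- The matrices of the three reflections in the basis of polar vectors. -/
def gen (x w : R) : Fin 3 → Matrix (Fin 3) (Fin 3) R
  | 0 => !![1, Qf x w, -(w ^ 2 * Pf x w); 0, -1, 0; 0, 0, -1]
  | 1 => !![-1, 0, 0; Pf x w, 1, Qf x w; 0, 0, -1]
  | 2 => !![-1, 0, 0; 0, -1, 0; -(w * Qf x w), Pf x w, 1]

/-- Products of the generating matrices. -/
def gprod (x w : R) (l : List (Fin 3)) : Matrix (Fin 3) (Fin 3) R := (l.map (gen x w)).prod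

lemma gprod_nil (x w : R) : gprod x w [] = 1 := rfl

lemma gprod_cons (x w : R) (k : Fin 3) (l : List (Fin 3)) :
    gprod x w (k :: l) = gen x w k * gprod x w l := by
  simp [gprod]

lemma gen_map (φ : R →+* S) (x w : R) (k : Fin 3) :
    (gen x w k).map φ = gen (φ x) (φ w) k := by
  ext i j
  fin_cases k <;> fin_cases i <;> fin_cases j <;> simp [gen, Pf, Qf]

lemma gprod_map (φ : R →+* S) (x w : R) (l : List (Fin 3)) :
    (gprod x w l).map φ = gprod (φ x) (φ w) l := by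
  induction l with
  | nil => simp [gprod_nil]
  | cons k l ih =>
    rw [gprod_cons, gprod_cons, ← ih, ← gen_map φ x w k, Matrix.map_mul]

end Gen

lemma Pf_mul_Qf {x w : ℂ} (hx : x ^ 3 - x ^ 2 - 2 * x + 1 = 0) (hw : w ^ 2 + w + 1 = 0) :
    Pf x w * Qf x w = 2 + x := by
  unfold Pf Qf
  grind

lemma Pf_Qf_cubes {x w : ℂ} (hx : x ^ 3 - x ^ 2 - 2 * x + 1 = 0) (hw : w ^ 2 + w + 1 = 0) :
    w ^ 2 * Pf x w ^ 3 + w * Qf x w ^ 3 = -5 * (1 + x) := by
  unfold Pf Qf
  grind

lemma conj_of_root {w : ℂ} (hw : w ^ 2 + w + 1 = 0) : conj w = w ^ 2 := by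
  rcases root_cases hw with h | h
  · rw [h, conj_om]
  · rw [h, map_pow, conj_om]

lemma pow_three_of_root {w : ℂ} (hw : w ^ 2 + w + 1 = 0) : w ^ 3 = 1 := by
  linear_combination (w - 1) * hw

lemma conj_Pf {r : ℝ} {w : ℂ} (hw : w ^ 2 + w + 1 = 0) : conj (Pf (r : ℂ) w) = Qf (r : ℂ) w := by
  simp [Pf, Qf, conj_of_root hw]

lemma conj_Qf {r : ℝ} {w : ℂ} (hw : w ^ 2 + w + 1 = 0) : conj (Qf (r : ℂ) w) = Pf (r : ℂ) w := by
  rw [← conj_Pf hw, Complex.conj_conj]

/-- The generating matrices preserve the Gram matrix. -/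
lemma gen_isometry {r : ℝ} {w : ℂ} (hw : w ^ 2 + w + 1 = 0) (k : Fin 3) :
    (gen (r : ℂ) w k)ᴴ * gram (r : ℂ) w * gen (r : ℂ) w k = gram (r : ℂ) w := by
  have h1 := conj_Pf (r := r) hw
  have h2 := conj_Qf (r := r) hw
  have h3 := conj_of_root hw
  have h4 := pow_three_of_root hw
  have h5 : conj (w ^ 2) = w := by
    rw [map_pow, h3]
    linear_combination w * h4
  ext i j
  fin_cases k <;> fin_cases i <;> fin_cases j <;>
    simp [gen, gram, Matrix.mul_apply, Fin.sum_univ_three, Matrix.conjTranspose_apply, h1, h2,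
      h3, h5] <;> ring

lemma gprod_isometry {r : ℝ} {w : ℂ} (hw : w ^ 2 + w + 1 = 0) (l : List (Fin 3)) :
    (gprod (r : ℂ) w l)ᴴ * gram (r : ℂ) w * gprod (r : ℂ) w l = gram (r : ℂ) w := by
  induction l with
  | nil => simp [gprod_nil]
  | cons k l ih =>
    rw [gprod_cons, Matrix.conjTranspose_mul]
    calc (gprod (r : ℂ) w l)ᴴ * (gen (r : ℂ) w k)ᴴ * gram (r : ℂ) w *
          (gen (r : ℂ) w k * gprod (r : ℂ) w l)
        = (gprod (r : ℂ) w l)ᴴ * ((gen (r : ℂ) w k)ᴴ * gram (r : ℂ) w * gen (r : ℂ) w k) *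
          gprod (r : ℂ) w l := by simp only [Matrix.mul_assoc]
      _ = gram (r : ℂ) w := by rw [gen_isometry hw, ih]

/-- A sum of squares identity. -/
lemma sos0 (r w v0 v1 v2 c0 c1 c2 P Q : ℂ) (hw : w ^ 2 + w + 1 = 0) (hPQ : P * Q = 2 + r)
    (h3 : w ^ 2 * P ^ 3 + w * Q ^ 3 = -5 * (1 + r)) :
    (2 - r) * (c0 * (2 * v0 + Q * v1 + -(w ^ 2 * P) * v2) + c1 * (P * v0 + 2 * v1 + Q * v2)
      + c2 * (-(w * Q) * v0 + P * v1 + 2 * v2)) - (1 - r) * (v0 * c0) =
    (2 - r) / 2 * ((2 * v1 + Q * v2 + P * v0) * (2 * c1 + P * c2 + Q * c0)) +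
    1 / 2 * (((2 - r) * v2 + (2 * (-(w * Q)) - P * P) * v0) *
      ((2 - r) * c2 + (2 * (-(w ^ 2 * P)) - Q * Q) * c0)) := by
  grind

lemma sos1 (r w v0 v1 v2 c0 c1 c2 P Q : ℂ) (hw : w ^ 2 + w + 1 = 0) (hPQ : P * Q = 2 + r)
    (h3 : w ^ 2 * P ^ 3 + w * Q ^ 3 = -5 * (1 + r)) :
    (2 - r) * (c0 * (2 * v0 + Q * v1 + -(w ^ 2 * P) * v2) + c1 * (P * v0 + 2 * v1 + Q * v2)
      + c2 * (-(w * Q) * v0 + P * v1 + 2 * v2)) - (1 - r) * (v1 * c1) =
    (2 - r) / 2 * ((2 * v2 + -(w * Q) * v0 + P * v1) * (2 * c2 + -(w ^ 2 * P) * c0 + Q * c1)) +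
    1 / 2 * (((2 - r) * v0 + (2 * Q + w ^ 2 * P * P) * v1) *
      ((2 - r) * c0 + (2 * P + w * Q * Q) * c1)) := by
  grind

lemma sos2 (r w v0 v1 v2 c0 c1 c2 P Q : ℂ) (hw : w ^ 2 + w + 1 = 0) (hPQ : P * Q = 2 + r)
    (h3 : w ^ 2 * P ^ 3 + w * Q ^ 3 = -5 * (1 + r)) :
    (2 - r) * (c0 * (2 * v0 + Q * v1 + -(w ^ 2 * P) * v2) + c1 * (P * v0 + 2 * v1 + Q * v2)
      + c2 * (-(w * Q) * v0 + P * v1 + 2 * v2)) - (1 - r) * (v2 * c2) =
    (2 - r) / 2 * ((2 * v0 + Q * v1 + -(w ^ 2 * P) * v2) * (2 * c0 + P * c1 + -(w * Q) * c2)) +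
    1 / 2 * (((2 - r) * v1 + (2 * Q + w ^ 2 * P * P) * v2) *
      ((2 - r) * c1 + (2 * P + w * Q * Q) * c2)) := by
  grind

/-- The quadratic form of the Gram matrix is positive definite for `-2 < r < 1`. -/
lemma form_bound {r : ℝ} {w : ℂ} (hr : (r : ℂ) ^ 3 - (r : ℂ) ^ 2 - 2 * r + 1 = 0)
    (hw : w ^ 2 + w + 1 = 0) (h1 : r < 1) (v : Fin 3 → ℂ)
    (hv : star v ⬝ᵥ (gram (r : ℂ) w *ᵥ v) = 2) (i : Fin 3) :
    (1 - r) * ‖v i‖ ^ 2 ≤ 2 * (2 - r) := by
  have hPQ := Pf_mul_Qf hr hw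
  have hc := Pf_Qf_cubes hr hw
  have e1 := conj_Pf (r := r) hw
  have e2 := conj_Qf (r := r) hw
  have e3 := conj_of_root hw
  have e4 := pow_three_of_root hw
  have e5 : conj (w ^ 2) = w := by
    rw [map_pow, e3]
    linear_combination w * e4
  have hv' : conj (v 0) * (2 * v 0 + Qf (r : ℂ) w * v 1 + -(w ^ 2 * Pf (r : ℂ) w) * v 2)
      + conj (v 1) * (Pf (r : ℂ) w * v 0 + 2 * v 1 + Qf (r : ℂ) w * v 2)
      + conj (v 2) * (-(w * Qf (r : ℂ) w) * v 0 + Pf (r : ℂ) w * v 1 + 2 * v 2) = 2 := by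
    refine Eq.trans ?_ hv
    simp [gram, Matrix.mulVec, dotProduct, Fin.sum_univ_three]
  generalize Pf (r : ℂ) w = P at *
  generalize Qf (r : ℂ) w = Q at *
  -- a complex identity implies the real inequality
  have main : ∀ (a b z : ℂ), (2 - (r : ℂ)) * 2 - (1 - r) * (z * conj z) =
      (2 - r) / 2 * (a * conj a) + 1 / 2 * (b * conj b) → (1 - r) * ‖z‖ ^ 2 ≤ 2 * (2 - r) := by
    intro a b z h
    rw [Complex.mul_conj, Complex.mul_conj, Complex.mul_conj, Complex.normSq_eq_norm_sq,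
      Complex.normSq_eq_norm_sq, Complex.normSq_eq_norm_sq] at h
    have h' : (((2 - r) * 2 - (1 - r) * ‖z‖ ^ 2 : ℝ) : ℂ) =
        (((2 - r) / 2 * ‖a‖ ^ 2 + 1 / 2 * ‖b‖ ^ 2 : ℝ) : ℂ) := by
      push_cast
      push_cast at h
      exact h
    have h'' : (2 - r) * 2 - (1 - r) * ‖z‖ ^ 2 = (2 - r) / 2 * ‖a‖ ^ 2 + 1 / 2 * ‖b‖ ^ 2 :=
      Complex.ofReal_injective h'
    have : 0 ≤ (2 - r) / 2 * ‖a‖ ^ 2 + 1 / 2 * ‖b‖ ^ 2 := by
      have : 0 ≤ (2 - r) / 2 := by linarith
      positivity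
    linarith
  have c6 : conj (-(w ^ 2 * P)) = -(w * Q) := by
    rw [map_neg, map_mul, e5, e1]
  have c7 : conj (-(w * Q)) = -(w ^ 2 * P) := by
    rw [map_neg, map_mul, e3, e2]
  have c8 : conj (w ^ 2 * P * P) = w * Q * Q := by
    rw [map_mul, map_mul, e5, e1]
  have cr : conj (r : ℂ) = r := Complex.conj_ofReal r
  fin_cases i
  · refine main (2 * v 1 + Q * v 2 + P * v 0)
      ((2 - r) * v 2 + (2 * (-(w * Q)) - P * P) * v 0) (v 0) ?_
    have h := sos0 r w (v 0) (v 1) (v 2) (conj (v 0)) (conj (v 1)) (conj (v 2)) P Q hw hPQ hc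
    rw [hv'] at h
    rw [h]
    simp only [map_add, map_sub, map_mul (starRingEnd ℂ) (2 - (r : ℂ)), map_mul (starRingEnd ℂ) 2,
      map_mul (starRingEnd ℂ) Q, map_mul (starRingEnd ℂ) P,
      map_mul (starRingEnd ℂ) (2 * (-(w * Q)) - P * P), map_ofNat, e1, e2, c7, cr]
  · refine main (2 * v 2 + -(w * Q) * v 0 + P * v 1)
      ((2 - r) * v 0 + (2 * Q + w ^ 2 * P * P) * v 1) (v 1) ?_
    have h := sos1 r w (v 0) (v 1) (v 2) (conj (v 0)) (conj (v 1)) (conj (v 2)) P Q hw hPQ hc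
    rw [hv'] at h
    rw [h]
    simp only [map_add, map_sub, map_mul (starRingEnd ℂ) (2 - (r : ℂ)), map_mul (starRingEnd ℂ) 2,
      map_mul (starRingEnd ℂ) P, map_mul (starRingEnd ℂ) (-(w * Q)),
      map_mul (starRingEnd ℂ) (2 * Q + w ^ 2 * P * P), map_ofNat, e1, e2, c7, c8, cr]
  · refine main (2 * v 0 + Q * v 1 + -(w ^ 2 * P) * v 2)
      ((2 - r) * v 1 + (2 * Q + w ^ 2 * P * P) * v 2) (v 2) ?_
    have h := sos2 r w (v 0) (v 1) (v 2) (conj (v 0)) (conj (v 1)) (conj (v 2)) P Q hw hPQ hc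
    rw [hv'] at h
    rw [h]
    simp only [map_add, map_sub, map_mul (starRingEnd ℂ) (2 - (r : ℂ)), map_mul (starRingEnd ℂ) 2,
      map_mul (starRingEnd ℂ) Q, map_mul (starRingEnd ℂ) (-(w ^ 2 * P)),
      map_mul (starRingEnd ℂ) (2 * Q + w ^ 2 * P * P), map_ofNat, e2, c6, c8, cr]

/-! ### The number field and finiteness -/

lemma isIntegral_of_cubic {A : Type*} [CommRing A] {x : A} (hx : x ^ 3 - x ^ 2 - 2 * x + 1 = 0) :
    IsIntegral ℤ x := by
  refine ⟨Polynomial.X ^ 3 - Polynomial.X ^ 2 - 2 * Polynomial.X + 1, ?_, ?_⟩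
  · monicity!
  · simpa using hx

lemma isIntegral_of_quadratic {A : Type*} [CommRing A] {x : A} (hx : x ^ 2 + x + 1 = 0) :
    IsIntegral ℤ x := by
  refine ⟨Polynomial.X ^ 2 + Polynomial.X + 1, ?_, ?_⟩
  · monicity!
  · simpa using hx

lemma uC_cubic : (uR : ℂ) ^ 3 - (uR : ℂ) ^ 2 - 2 * uR + 1 = 0 := by exact_mod_cast uR_cubic

/-- The field `ℚ(u, ω)`. -/
abbrev KK : Type := IntermediateField.adjoin ℚ ({(uR : ℂ), om} : Set ℂ)

instance instNumberFieldKK : NumberField KK where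
  to_charZero := inferInstance
  to_finiteDimensional := by
    refine IntermediateField.finiteDimensional_adjoin ?_
    intro x hx
    rcases hx with rfl | rfl
    · exact (isIntegral_of_cubic uC_cubic).tower_top
    · exact (isIntegral_of_quadratic om_eq).tower_top

/-- `u` as an element of `KK`. -/
def uK : KK := ⟨(uR : ℂ), IntermediateField.subset_adjoin _ _ (by simp)⟩

/-- `ω` as an element of `KK`. -/
def wK : KK := ⟨om, IntermediateField.subset_adjoin _ _ (by simp)⟩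

lemma uK_cubic : uK ^ 3 - uK ^ 2 - 2 * uK + 1 = 0 := by
  apply Subtype.ext
  push_cast
  exact uC_cubic

lemma wK_eq : wK ^ 2 + wK + 1 = 0 := by
  apply Subtype.ext
  push_cast
  exact om_eq

lemma isIntegral_gen (k i j : Fin 3) : IsIntegral ℤ (gen uK wK k i j) := by
  have hu : IsIntegral ℤ uK := isIntegral_of_cubic uK_cubic
  have hw : IsIntegral ℤ wK := isIntegral_of_quadratic wK_eq
  have h1 : IsIntegral ℤ (1 : KK) := isIntegral_one
  have h0 : IsIntegral ℤ (0 : KK) := isIntegral_zero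
  have hP : IsIntegral ℤ (Pf uK wK) := h1.add (((hu.pow 2).sub h1).mul hw)
  have hQ : IsIntegral ℤ (Qf uK wK) := h1.add (((hu.pow 2).sub h1).mul (hw.pow 2))
  fin_cases k <;> fin_cases i <;> fin_cases j <;> simp [gen] <;>
    first
    | exact h1
    | exact h0
    | exact h1.neg
    | exact hP
    | exact hQ
    | exact (hw.pow 2).mul hP
    | exact hw.mul hQ

lemma isIntegral_gprod (l : List (Fin 3)) (i j : Fin 3) : IsIntegral ℤ (gprod uK wK l i j) := by
  induction l generalizing i j with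
  | nil =>
    rw [gprod_nil, Matrix.one_apply]
    split_ifs
    · exact isIntegral_one
    · exact isIntegral_zero
  | cons k l ih =>
    rw [gprod_cons, Matrix.mul_apply]
    exact IsIntegral.sum _ fun m _ => (isIntegral_gen k i m).mul (ih m j)

/-- the inclusion of `KK` in `ℂ` -/
def incl : KK →+* ℂ := (IntermediateField.adjoin ℚ ({(uR : ℂ), om} : Set ℂ)).val.toRingHom

lemma incl_uK : incl uK = uR := rfl

lemma incl_wK : incl wK = om := rfl

lemma gprod_incl (l : List (Fin 3)) (i j : Fin 3) :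
    incl (gprod uK wK l i j) = gprod (uR : ℂ) om l i j := by
  have h := gprod_map incl uK wK l
  rw [incl_uK, incl_wK] at h
  rw [← h]
  rfl

lemma embedding_bound (φ : KK →+* ℂ) (C : ℝ) (l : List (Fin 3))
    (hC : ∀ i j, ‖gprod (uR : ℂ) om l i j‖ ≤ C) (i j : Fin 3) :
    ‖φ (gprod uK wK l i j)‖ ≤ max C (1 + 2 * (2 - (φ uK).re) / (1 - (φ uK).re)) := by
  have hx : (φ uK) ^ 3 - (φ uK) ^ 2 - 2 * φ uK + 1 = 0 := by
    have := congrArg φ uK_cubic
    simpa [map_ofNat φ 2] using this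
  have hw : (φ wK) ^ 2 + φ wK + 1 = 0 := by
    have := congrArg φ wK_eq
    simpa using this
  have h1 : φ (gprod uK wK l i j) = gprod (φ uK) (φ wK) l i j := by
    rw [← gprod_map φ uK wK l]
    rfl
  rw [h1]
  rcases cubic_root_cases hx with hu | ⟨r, hr, hr1, hr2⟩
  · rw [hu]
    refine le_trans ?_ (le_max_left _ _)
    rcases root_cases hw with h | h
    · rw [h]
      exact hC i j
    · have h2 : gprod (uR : ℂ) (φ wK) l = (gprod (uR : ℂ) om l).map (starRingEnd ℂ) := by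
        rw [gprod_map, h, Complex.conj_ofReal, conj_om]
      rw [h2, Matrix.map_apply, RCLike.norm_conj]
      exact hC i j
  · rw [hr] at hx ⊢
    refine le_trans ?_ (le_max_right _ _)
    rw [Complex.ofReal_re]
    have h3 := gprod_isometry (r := r) hw l
    have h4 := form_bound hx hw hr2 (fun m => gprod (r : ℂ) (φ wK) l m j) (by
      have h5 := congrFun (congrFun h3 j) j
      have h6 : gram (r : ℂ) (φ wK) j j = 2 := by
        fin_cases j <;> simp [gram]
      rw [h6] at h5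
      rw [← h5]
      simp only [Matrix.mul_apply, Matrix.conjTranspose_apply, dotProduct, Matrix.mulVec,
        Pi.star_apply, Finset.sum_mul, Finset.mul_sum]
      rw [Finset.sum_comm]
      refine Finset.sum_congr rfl fun a _ => Finset.sum_congr rfl fun b _ => ?_
      ring) i
    have h7 : 0 < 1 - r := by linarith
    have h8 : ‖gprod (r : ℂ) (φ wK) l i j‖ ^ 2 ≤ 2 * (2 - r) / (1 - r) := by
      rw [le_div_iff₀ h7]
      linarith
    nlinarith [sq_nonneg (‖gprod (r : ℂ) (φ wK) l i j‖ - 1)]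

/-- Only finitely many products of the generators have bounded entries. -/
lemma finite_gprod (C : ℝ) :
    {M : Matrix (Fin 3) (Fin 3) ℂ | ∃ l : List (Fin 3), M = gprod (uR : ℂ) om l ∧
      ∀ i j, ‖gprod (uR : ℂ) om l i j‖ ≤ C}.Finite := by
  -- a uniform bound over all embeddings
  obtain ⟨B, hB⟩ := (Set.finite_range fun φ : KK →+* ℂ =>
    max C (1 + 2 * (2 - (φ uK).re) / (1 - (φ uK).re))).bddAbove
  have hfin := NumberField.Embeddings.finite_of_norm_le KK ℂ B
  set F : Set KK := {x : KK | IsIntegral ℤ x ∧ ∀ φ : KK →+* ℂ, ‖φ x‖ ≤ B} with hF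
  have hpi : (Set.univ.pi fun _ : Fin 3 => Set.univ.pi fun _ : Fin 3 => F).Finite :=
    Set.Finite.pi' (fun _ => Set.Finite.pi' fun _ => hfin) |>.subset (by
      intro M hM i j
      exact hM i (Set.mem_univ _) j (Set.mem_univ _))
  have himg := hpi.image (fun M : Fin 3 → Fin 3 → KK => (Matrix.of fun i j => incl (M i j)))
  refine himg.subset ?_
  rintro M ⟨l, rfl, hl⟩
  refine ⟨gprod uK wK l, ?_, ?_⟩
  · intro i _ j _
    refine ⟨isIntegral_gprod l i j, fun φ => ?_⟩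
    exact (embedding_bound φ C l hl i j).trans (hB ⟨φ, rfl⟩)
  · ext i j
    exact gprod_incl l i j

/-! ### The polar vectors -/

/-- The number `P`. -/
def Pc : ℂ := Pf (uR : ℂ) om

/-- The number `Q`, the complex conjugate of `P`. -/
def Qc : ℂ := Qf (uR : ℂ) om

lemma Pc_mul_Qc : Pc * Qc = 2 + uR := Pf_mul_Qf uC_cubic om_eq

lemma PQ_cubes : om ^ 2 * Pc ^ 3 + om * Qc ^ 3 = -5 * (1 + uR) := Pf_Qf_cubes uC_cubic om_eq

lemma conj_Pc : conj Pc = Qc := conj_Pf om_eq

lemma conj_Qc : conj Qc = Pc := conj_Qf om_eq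

lemma om_cube : om ^ 3 = 1 := pow_three_of_root om_eq

lemma conj_om_sq : conj (om ^ 2) = om := by
  rw [map_pow, conj_om]
  linear_combination om * om_cube

/-- `b = √((2 - u)/4)`. -/
def bb : ℝ := Real.sqrt ((2 - uR) / 4)

/-- `ε = √((u - 1)/(2 (2 - u)))`. -/
def ee : ℝ := Real.sqrt ((uR - 1) / (2 * (2 - uR)))

lemma bb_pos : 0 < bb := Real.sqrt_pos.2 (by linarith [uR_lt])

lemma ee_pos : 0 < ee :=
  Real.sqrt_pos.2 (div_pos (by linarith [uR_gt_one]) (by linarith [uR_lt]))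

lemma bb_sq : bb ^ 2 = (2 - uR) / 4 := Real.sq_sqrt (by linarith [uR_lt])

lemma ee_sq : ee ^ 2 = (uR - 1) / (2 * (2 - uR)) :=
  Real.sq_sqrt (div_pos (by linarith [uR_gt_one]) (by linarith [uR_lt])).le

lemma bbC_sq : (bb : ℂ) ^ 2 = (2 - uR) / 4 := by exact_mod_cast bb_sq

lemma eeC_sq : (ee : ℂ) ^ 2 = (uR - 1) / (2 * (2 - uR)) := by exact_mod_cast ee_sq

lemma bbC_ne : (bb : ℂ) ≠ 0 := by exact_mod_cast bb_pos.ne'

lemma two_sub_ne : (2 - (uR : ℂ)) ≠ 0 := by
  have h : (2 - uR) ≠ 0 := by linarith [uR_lt]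
  exact_mod_cast h

/-- The polar vectors of the three mirrors. -/
def nv : Fin 3 → C3
  | 0 => ![1, 0, 0]
  | 1 => ![Qc / 2, bb, 0]
  | 2 => ![-(om ^ 2 * Pc) / 2, (Qc / 2 + om ^ 2 * Pc ^ 2 / 4) / bb, ee]

lemma conj_delta : conj ((Qc / 2 + om ^ 2 * Pc ^ 2 / 4) / bb) = (Pc / 2 + om * Qc ^ 2 / 4) / bb := by
  rw [map_div₀, map_add, map_div₀, map_div₀, map_mul, conj_om_sq, map_pow, conj_Pc, conj_Qc,
    Complex.conj_ofReal, map_ofNat, map_ofNat]

lemma conj_gamma : conj (-(om ^ 2 * Pc) / 2) = -(om * Qc) / 2 := by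
  rw [map_div₀, map_neg, map_mul, conj_om_sq, conj_Pc, map_ofNat]

lemma herm00 : herm (nv 0) (nv 0) = 1 := by simp [herm, nv]

lemma herm11 : herm (nv 1) (nv 1) = 1 := by
  have h : conj (Qc / 2) = Pc / 2 := by rw [map_div₀, conj_Qc, map_ofNat]
  simp only [herm, nv, Matrix.cons_val_zero, Matrix.cons_val_one, Matrix.cons_val, h,
    Complex.conj_ofReal, map_zero]
  linear_combination Pc_mul_Qc / 4 + bbC_sq

lemma herm22 : herm (nv 2) (nv 2) = 1 := by
  simp only [herm, nv, Matrix.cons_val_zero, Matrix.cons_val_one, Matrix.cons_val, conj_gamma,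
    conj_delta, Complex.conj_ofReal]
  have h1 : (Qc / 2 + om ^ 2 * Pc ^ 2 / 4) / bb * ((Pc / 2 + om * Qc ^ 2 / 4) / bb) =
      ((Qc / 2 + om ^ 2 * Pc ^ 2 / 4) * (Pc / 2 + om * Qc ^ 2 / 4)) / ((2 - uR) / 4) := by
    rw [← bbC_sq]
    field_simp
  have h2 : (ee : ℂ) * ee = (uR - 1) / (2 * (2 - uR)) := by rw [← eeC_sq]; ring
  rw [h1, h2]
  have h3 := Pc_mul_Qc
  have h4 := PQ_cubes
  have h5 := om_cube
  have h6 : (Qc / 2 + om ^ 2 * Pc ^ 2 / 4) * (Pc / 2 + om * Qc ^ 2 / 4) =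
      ((uR : ℂ) ^ 2 - 2 * uR + 2) / 16 := by
    grind
  have h7 : -(om ^ 2 * Pc) / 2 * (-(om * Qc) / 2) = (2 + uR) / 4 := by
    grind
  rw [h6, h7]
  have h8 := two_sub_ne
  field_simp
  ring

lemma herm01 : herm (nv 0) (nv 1) = Pc / 2 := by
  have h : conj (Qc / 2) = Pc / 2 := by rw [map_div₀, conj_Qc, map_ofNat]
  simp only [herm, nv, Matrix.cons_val_zero, Matrix.cons_val_one, Matrix.cons_val, h,
    Complex.conj_ofReal, map_zero]
  ring

lemma herm12 : herm (nv 1) (nv 2) = Pc / 2 := by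
  simp only [herm, nv, Matrix.cons_val_zero, Matrix.cons_val_one, Matrix.cons_val, conj_gamma,
    conj_delta, Complex.conj_ofReal]
  have h := bbC_ne
  field_simp
  ring

lemma herm20 : herm (nv 2) (nv 0) = -(om ^ 2 * Pc) / 2 := by
  simp [herm, nv]

lemma herm10 : herm (nv 1) (nv 0) = Qc / 2 := by
  rw [← herm_conj, herm01, map_div₀, conj_Pc, map_ofNat]

lemma herm21 : herm (nv 2) (nv 1) = Qc / 2 := by
  rw [← herm_conj, herm12, map_div₀, conj_Pc, map_ofNat]

lemma herm02 : herm (nv 0) (nv 2) = -(om * Qc) / 2 := by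
  rw [← herm_conj, herm20, conj_gamma]

lemma herm_nv_self (k : Fin 3) : herm (nv k) (nv k) = 1 := by
  fin_cases k
  · exact herm00
  · exact herm11
  · exact herm22

lemma two_herm_nv (j k : Fin 3) : 2 * herm (nv j) (nv k) = gram (uR : ℂ) om k j := by
  fin_cases j <;> fin_cases k <;>
    simp [gram, herm00, herm11, herm22, herm01, herm12, herm20, herm10, herm21, herm02, Pc, Qc] <;>
    ring

/-- The matrix whose columns are the polar vectors. -/
def Nm : Matrix (Fin 3) (Fin 3) ℂ := Matrix.of fun i j => nv j i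

lemma det_Nm : Nm.det = bb * ee := by
  rw [Matrix.det_fin_three]
  simp [Nm, nv]

lemma isUnit_Nm : IsUnit Nm.det := by
  rw [det_Nm]
  have h1 := bbC_ne
  have h2 : (ee : ℂ) ≠ 0 := by exact_mod_cast ee_pos.ne'
  exact (mul_ne_zero h1 h2).isUnit

lemma Nm_mul_inv : Nm * Nm⁻¹ = 1 := Matrix.mul_nonsing_inv _ isUnit_Nm

lemma Nm_inv_mul : Nm⁻¹ * Nm = 1 := Matrix.nonsing_inv_mul _ isUnit_Nm

lemma gen_apply (x w : ℂ) (k i j : Fin 3) :
    gen x w k i j = -(if i = j then 1 else 0) + (if i = k then gram x w k j else 0) := by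
  fin_cases k <;> fin_cases i <;> fin_cases j <;> simp [gen, gram] <;> norm_num

lemma reflMat_mul_Nm (k : Fin 3) : reflMat (nv k) * Nm = Nm * gen (uR : ℂ) om k := by
  ext i j
  have h1 : (reflMat (nv k) * Nm) i j = (reflMat (nv k) *ᵥ nv j) i := by
    simp [Matrix.mul_apply, Matrix.mulVec, dotProduct, Nm]
  rw [h1, reflMat_mulVec, two_herm_nv, Matrix.mul_apply]
  simp only [gen_apply, Pi.add_apply, Pi.neg_apply, Pi.smul_apply, smul_eq_mul, Nm,
    Matrix.of_apply, mul_add, mul_neg, mul_ite, mul_one, mul_zero, Finset.sum_add_distrib,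
    Finset.sum_neg_distrib, Finset.sum_ite_eq', Finset.mem_univ, if_true]
  ring

/-- The product of reflections in `U(2,1)`. -/
def rprod (l : List (Fin 3)) : U21 := (l.map fun k => refl (nv k) (herm_nv_self k)).prod

lemma rprod_cons (k : Fin 3) (l : List (Fin 3)) :
    rprod (k :: l) = refl (nv k) (herm_nv_self k) * rprod l := by
  simp [rprod]

lemma mat_rprod_mul_Nm (l : List (Fin 3)) : mat (rprod l) * Nm = Nm * gprod (uR : ℂ) om l := by
  induction l with
  | nil => simp [rprod, gprod_nil, mat_one]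
  | cons k l ih =>
    rw [rprod_cons, mat_mul, Matrix.mul_assoc, ih, ← Matrix.mul_assoc, mat_refl, reflMat_mul_Nm,
      Matrix.mul_assoc, gprod_cons]

lemma mat_rprod (l : List (Fin 3)) : mat (rprod l) = Nm * gprod (uR : ℂ) om l * Nm⁻¹ := by
  rw [← mat_rprod_mul_Nm, Matrix.mul_assoc, Nm_mul_inv, Matrix.mul_one]

lemma gprod_eq (l : List (Fin 3)) : gprod (uR : ℂ) om l = Nm⁻¹ * mat (rprod l) * Nm := by
  rw [Matrix.mul_assoc, mat_rprod_mul_Nm, ← Matrix.mul_assoc, Nm_inv_mul, Matrix.one_mul]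

lemma rprod_eq_of_gprod_eq {l l' : List (Fin 3)}
    (h : gprod (uR : ℂ) om l = gprod (uR : ℂ) om l') : rprod l = rprod l' := by
  apply mat_injective
  rw [mat_rprod, mat_rprod, h]

/-! ### Orders of products -/

/-- If `(M - 1)(M² - u M + 1) = 0` with `u = 2 cos (π/7)` then `M^14 = 1`. -/
lemma pow14 {M : Matrix (Fin 3) (Fin 3) ℂ} (h : (M - 1) * (M * M - (uR : ℂ) • M + 1) = 0) :
    M ^ 14 = 1 := by
  let p : Polynomial ℂ := (Polynomial.X - 1) *
    (Polynomial.X * Polynomial.X - Polynomial.C (uR : ℂ) * Polynomial.X + 1)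
  let q : Polynomial ℂ := (Polynomial.X ^ 6 + Polynomial.X ^ 5 + Polynomial.X ^ 4 +
    Polynomial.X ^ 3 + Polynomial.X ^ 2 + Polynomial.X + 1) *
    (Polynomial.X ^ 5 + Polynomial.C (uR : ℂ) * Polynomial.X ^ 4 +
      (Polynomial.C (uR : ℂ) ^ 2 - 1) * Polynomial.X ^ 3 +
      (Polynomial.C (uR : ℂ) ^ 2 - 1) * Polynomial.X ^ 2 + Polynomial.C (uR : ℂ) * Polynomial.X + 1)
  have hc : (Polynomial.C (uR : ℂ)) ^ 3 - (Polynomial.C (uR : ℂ)) ^ 2 -
      2 * Polynomial.C (uR : ℂ) + 1 = 0 := by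
    have := congrArg Polynomial.C uC_cubic
    have h2 : Polynomial.C (2 : ℂ) = 2 := map_ofNat Polynomial.C 2
    simpa [h2] using this
  have hpq : (Polynomial.X : Polynomial ℂ) ^ 14 - 1 = q * p := by
    simp only [p, q]
    generalize Polynomial.C (uR : ℂ) = c at hc ⊢
    generalize (Polynomial.X : Polynomial ℂ) = X
    grind
  have h1 : Polynomial.aeval M ((Polynomial.X : Polynomial ℂ) ^ 14 - 1) = 0 := by
    rw [hpq, map_mul]
    have h2 : Polynomial.aeval M p = 0 := by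
      simp only [p, map_mul, map_sub, map_add, Polynomial.aeval_X, map_one, Polynomial.aeval_C]
      rw [← h]
      congr 2
      rw [Algebra.smul_def]
    rw [h2, mul_zero]
  simp only [map_sub, map_pow, Polynomial.aeval_X, map_one] at h1
  exact sub_eq_zero.1 h1

lemma gen_prod_sq (k : Fin 3) : gen (uR : ℂ) om k * gen (uR : ℂ) om k = 1 := by
  ext i j
  fin_cases k <;> fin_cases i <;> fin_cases j <;>
    simp [gen, Matrix.mul_apply, Fin.sum_univ_three]

/-- The matrix of `I₁ I₂`. -/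
lemma gen01 : gen (uR : ℂ) om 0 * gen (uR : ℂ) om 1 =
    !![Pc * Qc - 1, Qc, Qc * Qc + om ^ 2 * Pc; -Pc, -1, -Qc; 0, 0, 1] := by
  ext i j
  fin_cases i <;> fin_cases j <;>
    (simp [gen, Matrix.mul_apply, Fin.sum_univ_three, Pc, Qc]; try ring)

/-- The matrix of `I₂ I₃`. -/
lemma gen12 : gen (uR : ℂ) om 1 * gen (uR : ℂ) om 2 =
    !![1, 0, 0; -Pc - om * Qc * Qc, Pc * Qc - 1, Qc; om * Qc, -Pc, -1] := by
  ext i j
  fin_cases i <;> fin_cases j <;>
    (simp [gen, Matrix.mul_apply, Fin.sum_univ_three, Pc, Qc]; try ring)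

/-- The matrix of `I₃ I₁`. -/
lemma gen20 : gen (uR : ℂ) om 2 * gen (uR : ℂ) om 0 =
    !![-1, -Qc, om ^ 2 * Pc; 0, 1, 0; -(om * Qc), -(om * Qc * Qc) - Pc,
      om ^ 3 * Pc * Qc - 1] := by
  ext i j
  fin_cases i <;> fin_cases j <;>
    (simp [gen, Matrix.mul_apply, Fin.sum_univ_three, Pc, Qc]; try ring)

lemma rel01 : (gen (uR : ℂ) om 0 * gen (uR : ℂ) om 1) ^ 14 = 1 := by
  apply pow14
  have h1 := Pc_mul_Qc
  have h2 := om_cube
  rw [gen01]
  ext i j
  fin_cases i <;> fin_cases j <;> simp [Matrix.mul_apply, Fin.sum_univ_three] <;> grind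

lemma rel12 : (gen (uR : ℂ) om 1 * gen (uR : ℂ) om 2) ^ 14 = 1 := by
  apply pow14
  have h1 := Pc_mul_Qc
  have h2 := om_cube
  rw [gen12]
  ext i j
  fin_cases i <;> fin_cases j <;> simp [Matrix.mul_apply, Fin.sum_univ_three] <;> grind

lemma rel20 : (gen (uR : ℂ) om 2 * gen (uR : ℂ) om 0) ^ 14 = 1 := by
  apply pow14
  have h1 := Pc_mul_Qc
  have h2 := om_cube
  rw [gen20]
  ext i j
  fin_cases i <;> fin_cases j <;> simp [Matrix.mul_apply, Fin.sum_univ_three] <;> grind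

/-- The matrix of `I₁ I₂ I₃`. -/
lemma gen012_aux (u w : ℂ) (hu : u ^ 3 - u ^ 2 - 2 * u + 1 = 0) (hw : w ^ 2 + w + 1 = 0) :
    gprod u w [0, 1, 2] =
    !![u + w + u * w, w - u ^ 2 * w, 1 - u ^ 2 + w + u * w - u ^ 2 * w;
      -1 - u + u ^ 2 - u * w, -1 - u, -2 + u ^ 2 - w + u ^ 2 * w;
      1 - u ^ 2 - w, 1 - w + u ^ 2 * w, 1] := by
  have h : gprod u w [0, 1, 2] = (gen u w 0 * gen u w 1) * gen u w 2 := by
    simp [gprod, Matrix.mul_assoc]
  rw [h]
  ext i j
  fin_cases i <;> fin_cases j <;>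
    simp [gen, Matrix.mul_apply, Fin.sum_univ_three, Pf, Qf] <;> grind

lemma relWB_aux (u w : ℂ) (hu : u ^ 3 - u ^ 2 - 2 * u + 1 = 0) (hw : w ^ 2 + w + 1 = 0) :
    (w ^ 2 • gprod u w [0, 1, 2] - 1) * (w ^ 2 • gprod u w [0, 1, 2] * w ^ 2 • gprod u w [0, 1, 2]
      - u • (w ^ 2 • gprod u w [0, 1, 2]) + 1) = 0 := by
  have h1 : w ^ 2 • gprod u w [0, 1, 2] =
      !![1 - u * w, 1 - u ^ 2, u - w + u ^ 2 * w;
        1 - u ^ 2 + w + u * w - u ^ 2 * w, 1 + u + w + u * w, 1 + 2 * w - u ^ 2 * w;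
        -2 + u ^ 2 - w + u ^ 2 * w, -2 + u ^ 2 - w, -1 - w] := by
    rw [gen012_aux u w hu hw]
    ext i j
    fin_cases i <;> fin_cases j <;> simp <;> grind
  have h2 : w ^ 2 • gprod u w [0, 1, 2] * w ^ 2 • gprod u w [0, 1, 2]
      - u • (w ^ 2 • gprod u w [0, 1, 2]) + 1 =
      !![1 - u + w - u * w, w, -1 + u; -w + u * w, 1, 1 - u + w - u * w;
        -1 + u, -1 - w, -w + u * w] := by
    rw [h1]
    ext i j
    fin_cases i <;> fin_cases j <;> simp [Matrix.mul_apply, Fin.sum_univ_three] <;> grind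
  rw [h2, h1]
  ext i j
  fin_cases i <;> fin_cases j <;> simp [Matrix.mul_apply, Fin.sum_univ_three] <;> grind

/-- `(ω² B)^14 = 1` for the matrix `B` of `I₁ I₂ I₃`. -/
lemma relWB : (om ^ 2 • gprod (uR : ℂ) om [0, 1, 2]) ^ 14 = 1 :=
  pow14 (relWB_aux _ _ uC_cubic om_eq)

/-- The negative eigenvector of `I₁ I₂ I₃`. -/
lemma eigWB : gprod (uR : ℂ) om [0, 1, 2] *ᵥ ![1, om ^ 2, om] = om • ![1, om ^ 2, om] := by
  rw [gen012_aux _ _ uC_cubic om_eq]
  have h4 := om_eq
  have h5 := uC_cubic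
  generalize om = w at *
  generalize (uR : ℂ) = u at *
  ext i
  fin_cases i <;> simp [Matrix.mulVec, dotProduct, Fin.sum_univ_three] <;> grind

lemma traceWA_aux (u w : ℂ) (hu : u ^ 3 - u ^ 2 - 2 * u + 1 = 0) (hw : w ^ 2 + w + 1 = 0) :
    (gprod u w [0, 1, 2, 1]).trace = u ^ 2 := by
  have h : gprod u w [0, 1, 2, 1] = gprod u w [0, 1, 2] * gen u w 1 := by
    simp [gprod, Matrix.mul_assoc]
  rw [h, gen012_aux u w hu hw]
  simp only [gen, Matrix.trace_fin_three, Matrix.mul_apply, Fin.sum_univ_three, Pf, Qf]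
  simp
  grind

/-- The trace of `W_A`. -/
lemma traceWA : (gprod (uR : ℂ) om [0, 1, 2, 1]).trace = (uR : ℂ) ^ 2 :=
  traceWA_aux _ _ uC_cubic om_eq

/-! ### The representation -/

/-- The image of the `k`-th generator. -/
def fgen (k : Fin 3) : PU21 := QuotientGroup.mk (refl (nv k) (herm_nv_self k))

lemma refl_mul_self (k : Fin 3) :
    refl (nv k) (herm_nv_self k) * refl (nv k) (herm_nv_self k) = 1 := by
  apply mat_injective
  rw [mat_mul, mat_refl, mat_one, reflMat_sq (herm_nv_self k)]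

lemma rprod_append (l l' : List (Fin 3)) : rprod (l ++ l') = rprod l * rprod l' := by
  simp [rprod]

lemma rprod_pair (i j : Fin 3) : rprod [i, j] =
    refl (nv i) (herm_nv_self i) * refl (nv j) (herm_nv_self j) := by
  simp [rprod]

lemma gprod_pair (i j : Fin 3) :
    gprod (uR : ℂ) om [i, j] = gen (uR : ℂ) om i * gen (uR : ℂ) om j := by
  simp [gprod]

lemma conj_pow_Nm (M : Matrix (Fin 3) (Fin 3) ℂ) (m : ℕ) :
    (Nm * M * Nm⁻¹) ^ m = Nm * M ^ m * Nm⁻¹ := by
  induction m with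
  | zero => simp [Nm_mul_inv]
  | succ k ih =>
    rw [pow_succ, ih, pow_succ]
    calc Nm * M ^ k * Nm⁻¹ * (Nm * M * Nm⁻¹) = Nm * M ^ k * (Nm⁻¹ * Nm) * M * Nm⁻¹ := by
          simp only [Matrix.mul_assoc]
      _ = Nm * (M ^ k * M) * Nm⁻¹ := by
          rw [Nm_inv_mul, Matrix.mul_one]
          simp only [Matrix.mul_assoc]

lemma rprod_pair_pow {i j : Fin 3} (h : (gen (uR : ℂ) om i * gen (uR : ℂ) om j) ^ 14 = 1) :
    rprod [i, j] ^ 14 = 1 := by
  apply mat_injective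
  rw [mat_pow, mat_rprod, gprod_pair, conj_pow_Nm, h, mat_one, Matrix.mul_one, Nm_mul_inv]

lemma fgen_mul_pow {i j : Fin 3} (h : (gen (uR : ℂ) om i * gen (uR : ℂ) om j) ^ 14 = 1) :
    (fgen i * fgen j) ^ 14 = 1 := by
  have h1 : fgen i * fgen j = QuotientGroup.mk (rprod [i, j]) := by
    rw [rprod_pair]
    rfl
  rw [h1, ← QuotientGroup.mk_pow, rprod_pair_pow h]
  rfl

lemma fgen_sq (k : Fin 3) : fgen k ^ 2 = 1 := by
  have h1 : fgen k ^ 2 = QuotientGroup.mk (refl (nv k) (herm_nv_self k) *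
      refl (nv k) (herm_nv_self k)) := by
    rw [pow_two]
    rfl
  rw [h1, refl_mul_self]
  rfl

lemma rels_hold : ∀ r ∈ triangleRels 14 14 14, FreeGroup.lift fgen r = 1 := by
  intro r hr
  rcases hr with rfl | rfl | rfl | rfl | rfl | rfl
  · simp [fgen_sq]
  · simp [fgen_sq]
  · simp [fgen_sq]
  · simp [fgen_mul_pow rel01]
  · simp [fgen_mul_pow rel12]
  · simp [fgen_mul_pow rel20]

/-- The representation of the counterexample. -/
def rho : TriangleGroup 14 14 14 →* PU21 := PresentedGroup.toGroup rels_hold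

lemma rho_sigma (k : Fin 3) : rho (sigma k) = fgen k := PresentedGroup.toGroup.of rels_hold

lemma norm_Pc : ‖Pc‖ = 2 * Real.cos (Real.pi / 14) := by
  have h1 : Pc * conj Pc = 2 + uR := by rw [conj_Pc, Pc_mul_Qc]
  rw [Complex.mul_conj, Complex.normSq_eq_norm_sq] at h1
  have h2 : ‖Pc‖ ^ 2 = 2 + uR := by exact_mod_cast h1
  have h3 := four_cos_sq
  have h4 := cos14_pos
  have h5 : ‖Pc‖ ^ 2 = (2 * Real.cos (Real.pi / 14)) ^ 2 := by rw [h2]; linarith
  exact (pow_left_inj₀ (norm_nonneg _) (by positivity) (by norm_num)).1 h5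

lemma norm_om : ‖om‖ = 1 := by
  have h1 : om * conj om = 1 := by
    rw [conj_om]
    linear_combination om_cube
  rw [Complex.mul_conj, Complex.normSq_eq_norm_sq] at h1
  have h2 : ‖om‖ ^ 2 = 1 := by exact_mod_cast h1
  nlinarith [norm_nonneg om]

/-- The parameter of the counterexample. -/
def tstar : ℝ := Complex.arg (om ^ 2 * Pc ^ 3)

lemma exp_tstar : (8 * Real.cos (Real.pi / 14) ^ 3 : ℝ) * Complex.exp (tstar * Complex.I) =
    om ^ 2 * Pc ^ 3 := by
  have h1 := Complex.norm_mul_exp_arg_mul_I (om ^ 2 * Pc ^ 3)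
  have h2 : ‖om ^ 2 * Pc ^ 3‖ = 8 * Real.cos (Real.pi / 14) ^ 3 := by
    rw [norm_mul, norm_pow, norm_pow, norm_om, norm_Pc]
    ring
  rw [h2] at h1
  exact h1

lemma rho_isTriangleRep : IsTriangleRep 14 14 14 tstar rho := by
  have hn2 : ‖(2 : ℂ)‖ = 2 := by simp
  refine ⟨nv, herm_nv_self, ?_, ?_, ?_, ?_, ?_⟩
  · rw [herm01, norm_div, norm_Pc, hn2]
    push_cast
    ring
  · rw [herm12, norm_div, norm_Pc, hn2]
    push_cast
    ring
  · rw [herm20, norm_div, norm_neg, norm_mul, norm_pow, norm_om, norm_Pc, hn2]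
    push_cast
    ring
  · rw [herm01, herm12, herm20]
    have h := exp_tstar
    push_cast at h ⊢
    linear_combination (1 / 8) * h
  · intro k
    rw [rho_sigma]
    exact ⟨refl (nv k) (herm_nv_self k), rfl, fun z => reflMat_mulVec _ _⟩

lemma rho_WB : rho (WB 14 14 14) = QuotientGroup.mk (rprod [0, 1, 2]) := by
  have h1 : rprod [0, 1, 2] = refl (nv 0) (herm_nv_self 0) * refl (nv 1) (herm_nv_self 1) *
      refl (nv 2) (herm_nv_self 2) := by
    simp [rprod, mul_assoc]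
  rw [h1, WB, map_mul, map_mul, rho_sigma, rho_sigma, rho_sigma]
  rfl

lemma rho_WA : rho (WA 14 14 14) = QuotientGroup.mk (rprod [0, 1, 2, 1]) := by
  have h1 : rprod [0, 1, 2, 1] = refl (nv 0) (herm_nv_self 0) * refl (nv 1) (herm_nv_self 1) *
      refl (nv 2) (herm_nv_self 2) * refl (nv 1) (herm_nv_self 1) := by
    simp [rprod, mul_assoc]
  rw [h1, WA, map_mul, map_mul, map_mul, rho_sigma, rho_sigma, rho_sigma]
  rfl

lemma rho_WB_elliptic : IsElliptic (rho (WB 14 14 14)) := by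
  refine ⟨rprod [0, 1, 2], rho_WB.symm, Nm *ᵥ ![1, om ^ 2, om], ?_, om, ?_⟩
  · have hv : Nm *ᵥ ![1, om ^ 2, om] = nv 0 + (om ^ 2) • nv 1 + om • nv 2 := by
      ext i
      simp [Nm, Matrix.mulVec, dotProduct, Fin.sum_univ_three]
      ring
    have hh : herm (Nm *ᵥ ![1, om ^ 2, om]) (Nm *ᵥ ![1, om ^ 2, om]) = ((3 - uR ^ 2) / 2 : ℝ) := by
      rw [hv]
      simp only [herm_add_left, herm_add_right, herm_smul_left, herm_smul_right, herm00, herm01,
        herm02, herm10, herm11, herm12, herm20, herm21, herm22, conj_om_sq, conj_om]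
      push_cast
      have hP : Pc = 1 + ((uR : ℂ) ^ 2 - 1) * om := rfl
      have hQ : Qc = 1 + ((uR : ℂ) ^ 2 - 1) * om ^ 2 := rfl
      rw [hP, hQ]
      have h4 := om_eq
      have h5 := uC_cubic
      generalize om = w at *
      generalize (uR : ℂ) = u at *
      grind
    rw [hh, Complex.ofReal_re]
    linarith [uR_sq_gt]
  · rw [Matrix.mulVec_mulVec, mat_rprod_mul_Nm, ← Matrix.mulVec_mulVec, eigWB,
      Matrix.mulVec_smul]

lemma trace_rprod (l : List (Fin 3)) :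
    (mat (rprod l)).trace = (gprod (uR : ℂ) om l).trace := by
  rw [mat_rprod, Matrix.trace_mul_comm, ← Matrix.mul_assoc, Nm_inv_mul, Matrix.one_mul]

/-- `ρ(W_A)` has infinite order. -/
lemma rho_WA_pow_ne {m : ℕ} (hm : m ≠ 0) : rho (WA 14 14 14) ^ m ≠ 1 := by
  intro h
  rw [rho_WA, ← QuotientGroup.mk_pow] at h
  have h1 : (rprod [0, 1, 2, 1]) ^ m ∈ scalars := (QuotientGroup.eq_one_iff _).1 h
  obtain ⟨c, hc⟩ := h1
  have h2 := norm_trace_le_of_pow hm hc
  rw [trace_rprod, traceWA, norm_pow, Complex.norm_real, Real.norm_eq_abs, sq_abs] at h2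
  linarith [uR_sq_gt]

lemma rho_range_infinite : (Set.range rho).Infinite := by
  intro hfin
  have : Finite rho.range := hfin.to_subtype
  obtain ⟨m, hm, hm1⟩ := isOfFinOrder_iff_pow_eq_one.1
    (isOfFinOrder_of_finite (⟨rho (WA 14 14 14), ⟨_, rfl⟩⟩ : rho.range))
  apply rho_WA_pow_ne hm.ne'
  have := congrArg Subtype.val hm1
  simpa using this

/-! ### Type B -/

lemma trace_reflMat_mul {a b : C3} (ha : herm a a = 1) (hb : herm b b = 1) :
    (reflMat a * reflMat b).trace = 4 * (herm a b * conj (herm a b)) - 1 := by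
  have h1 : (reflMat a * reflMat b).trace =
      3 - 2 * herm a a - 2 * herm b b + 4 * (herm a b * herm b a) := by
    simp [reflMat, herm, Matrix.trace_fin_three, Matrix.mul_apply, Fin.sum_univ_three]
    ring
  rw [h1, ha, hb, herm_conj]
  ring

/-- A reflection conjugated by a reflection. -/
lemma reflMat_conj {b c : C3} (hb : herm b b = 1) :
    reflMat b * reflMat c * reflMat b = reflMat (reflMat b *ᵥ c) := by
  refine Matrix.toLin'.injective (LinearMap.ext fun z => ?_)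
  simp only [Matrix.toLin'_apply]
  have hbb : ∀ x : C3, reflMat b *ᵥ (reflMat b *ᵥ x) = x := by
    intro x
    rw [Matrix.mulVec_mulVec, reflMat_sq hb, Matrix.one_mulVec]
  rw [← Matrix.mulVec_mulVec, ← Matrix.mulVec_mulVec, reflMat_mulVec c,
    reflMat_mulVec (reflMat b *ᵥ c) z]
  rw [Matrix.mulVec_add, Matrix.mulVec_neg, hbb, Matrix.mulVec_smul]
  have h1 : herm (reflMat b *ᵥ z) c = herm z (reflMat b *ᵥ c) := by
    have h2 := reflMat_isometry hb (reflMat b *ᵥ z) c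
    rw [hbb] at h2
    exact h2.symm
  rw [h1]

lemma herm_reflMat_self {b c : C3} (hb : herm b b = 1) (hc : herm c c = 1) :
    herm (reflMat b *ᵥ c) (reflMat b *ᵥ c) = 1 := by
  rw [reflMat_isometry hb, hc]

/-- If `ρ_t(W_A)` is elliptic then `c² + 4 c⁴ + 4 c³ cos t ≤ 1` for `c = cos (π/14)`. -/
lemma WA_elliptic_bound {t : ℝ} {ρ : TriangleGroup 14 14 14 →* PU21}
    (h : IsTriangleRep 14 14 14 t ρ) (he : IsElliptic (ρ (WA 14 14 14))) :
    Real.cos (Real.pi / 14) ^ 2 + 4 * Real.cos (Real.pi / 14) ^ 4 +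
      4 * Real.cos (Real.pi / 14) ^ 3 * Real.cos t ≤ 1 := by
  obtain ⟨n, hn, h01, h12, h20, hprod, hrefl⟩ := h
  have e14 : ((14 : ℕ) : ℝ) = 14 := by norm_num
  rw [e14] at h01 h12 h20 hprod
  set c : ℝ := Real.cos (Real.pi / 14) with hc
  rw [Complex.ofReal_mul, Complex.ofReal_mul] at hprod
  have hρ : ρ (WA 14 14 14) = QuotientGroup.mk (refl (n 0) (hn 0) * refl (n 1) (hn 1) *
      refl (n 2) (hn 2) * refl (n 1) (hn 1)) := by
    rw [WA, map_mul, map_mul, map_mul, (hrefl 0).eq (hn 0), (hrefl 1).eq (hn 1),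
      (hrefl 2).eq (hn 2)]
    rfl
  obtain ⟨A, hA, v, hv, μ, hμ⟩ := he
  have htr := norm_trace_le_of_negative hv hμ
  rw [hρ] at hA
  obtain ⟨s, hs⟩ := exists_smul_of_mk_eq hA
  have hs1 := norm_eq_one_of_smul hs
  have hmat : mat (refl (n 0) (hn 0) * refl (n 1) (hn 1) * refl (n 2) (hn 2) *
      refl (n 1) (hn 1)) = reflMat (n 0) * reflMat (reflMat (n 1) *ᵥ n 2) := by
    rw [← reflMat_conj (hn 1)]
    simp only [mat_mul, mat_refl, Matrix.mul_assoc]
  rw [hmat] at hs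
  rw [hs, Matrix.trace_smul, smul_eq_mul, norm_mul, hs1, one_mul,
    trace_reflMat_mul (hn 0) (herm_reflMat_self (hn 1) (hn 2))] at htr
  -- the product of the three Hermitian products
  have hval : herm (n 0) (reflMat (n 1) *ᵥ n 2) =
      -herm (n 0) (n 2) + 2 * (herm (n 1) (n 2) * herm (n 0) (n 1)) := by
    rw [reflMat_mulVec, herm_add_right, herm_neg_right, herm_smul_right, map_mul, herm_conj,
      map_ofNat]
    ring
  have hsq : herm (n 0) (reflMat (n 1) *ᵥ n 2) * conj (herm (n 0) (reflMat (n 1) *ᵥ n 2)) =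
      ((c ^ 2 + 4 * c ^ 4 + 4 * c ^ 3 * Real.cos t : ℝ) : ℂ) := by
    have e1 : herm (n 0) (n 1) * conj (herm (n 0) (n 1)) = (c : ℂ) ^ 2 := by
      rw [Complex.mul_conj, Complex.normSq_eq_norm_sq, h01]
      push_cast
      ring
    have e2 : herm (n 1) (n 2) * conj (herm (n 1) (n 2)) = (c : ℂ) ^ 2 := by
      rw [Complex.mul_conj, Complex.normSq_eq_norm_sq, h12]
      push_cast
      ring
    have e3 : herm (n 2) (n 0) * conj (herm (n 2) (n 0)) = (c : ℂ) ^ 2 := by
      rw [Complex.mul_conj, Complex.normSq_eq_norm_sq, h20]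
      push_cast
      ring
    have e4 : herm (n 0) (n 2) = conj (herm (n 2) (n 0)) := (herm_conj _ _).symm
    have e5 : conj (herm (n 0) (n 1) * herm (n 1) (n 2) * herm (n 2) (n 0)) =
        -((c : ℂ) * c * c) * Complex.exp (-(t * Complex.I)) := by
      rw [hprod, map_mul, ← Complex.exp_conj]
      simp
    have e6 : (2 : ℂ) * Real.cos t = Complex.exp (t * Complex.I) + Complex.exp (-(t * Complex.I)) := by
      rw [Complex.ofReal_cos, Complex.two_cos]
      congr 2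
      ring
    rw [hval, e4]
    simp only [map_add, map_neg, map_mul, map_ofNat, Complex.conj_conj] at e5 ⊢
    generalize Complex.exp (t * Complex.I) = E at *
    generalize Complex.exp (-(t * Complex.I)) = E' at *
    generalize herm (n 0) (n 1) = x at *
    generalize herm (n 1) (n 2) = y at *
    generalize herm (n 2) (n 0) = z at *
    generalize conj x = x' at *
    generalize conj y = y' at *
    generalize conj z = z' at *
    generalize Real.cos t = ct at *
    push_cast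
    have e7 : x * x' * (y * y') = (c : ℂ) ^ 4 := by
      rw [e1, e2]
      ring
    linear_combination e3 + 4 * e7 - 2 * hprod - 2 * e5 - 2 * (c : ℂ) ^ 3 * e6
  rw [hsq] at htr
  have h3 : ‖(4 * ((c ^ 2 + 4 * c ^ 4 + 4 * c ^ 3 * Real.cos t : ℝ) : ℂ) - 1)‖ =
      |4 * (c ^ 2 + 4 * c ^ 4 + 4 * c ^ 3 * Real.cos t) - 1| := by
    rw [← Real.norm_eq_abs, ← Complex.norm_real]
    push_cast
    ring_nf
  rw [h3] at htr
  have h4 := (abs_le.1 htr).2
  linarith

lemma tstar_abs : |tstar| ≤ Real.pi := Complex.abs_arg_le_pi _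

lemma tstar_nonneg : 0 ≤ tstar := by
  rw [tstar, Complex.arg_nonneg_iff]
  have h : om ^ 2 * Pc ^ 3 = -((1 + uR) * (2 - om)) := by
    have hP : Pc = 1 + ((uR : ℂ) ^ 2 - 1) * om := rfl
    rw [hP]
    have h4 := om_eq
    have h5 := uC_cubic
    generalize om = w at *
    generalize (uR : ℂ) = u at *
    grind
  rw [h]
  have h2 : (-((1 + (uR : ℂ)) * (2 - om))).im = (1 + uR) * (Real.sqrt 3 / 2) := by
    simp [om]
  rw [h2]
  have := uR_gt_one
  positivity

/-- At the parameter of the counterexample, `c² + 4c⁴ + 4c³ cos t = (u² + 1)/4 > 1`. -/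
lemma cos_tstar : Real.cos (Real.pi / 14) ^ 2 + 4 * Real.cos (Real.pi / 14) ^ 4 +
      4 * Real.cos (Real.pi / 14) ^ 3 * Real.cos tstar = (uR ^ 2 + 1) / 4 := by
  have h1 := congrArg Complex.re exp_tstar
  rw [Complex.re_ofReal_mul, Complex.exp_ofReal_mul_I_re] at h1
  have h : om ^ 2 * Pc ^ 3 = -((1 + uR) * (2 - om)) := by
    have hP : Pc = 1 + ((uR : ℂ) ^ 2 - 1) * om := rfl
    rw [hP]
    have h4 := om_eq
    have h5 := uC_cubic
    generalize om = w at *
    generalize (uR : ℂ) = u at *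
    grind
  rw [h] at h1
  have h2 : (-((1 + (uR : ℂ)) * (2 - om))).re = -((1 + uR) * (5 / 2)) := by
    have h3 : (2 - om).re = 5 / 2 := by
      simp [om]
      norm_num
    rw [Complex.neg_re, Complex.mul_re, h3]
    simp
  rw [h2] at h1
  have h3 := four_cos_sq
  have h4 : 4 * Real.cos (Real.pi / 14) ^ 4 = (2 + uR) ^ 2 / 4 := by
    rw [← h3]
    ring
  have h5 : Real.cos (Real.pi / 14) ^ 2 = (2 + uR) / 4 := by linarith
  rw [h4, h5]
  have h6 := uR_cubic
  nlinarith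

lemma tstar_mem : tstar ∈ paramSet 14 14 14 := ⟨tstar_abs, rho, rho_isTriangleRep⟩

lemma ellipticAt_tstar : EllipticAt (WB 14 14 14) tstar := ⟨rho, rho_isTriangleRep, rho_WB_elliptic⟩

/-- The triple `(14,14,14)` has type B. -/
lemma typeB : IsTypeB 14 14 14 := by
  rintro ⟨t, ⟨ht, -⟩, ht0, ⟨ρ, hρ, he⟩, hs⟩
  have h1 := WA_elliptic_bound hρ he
  have h2 := cos_tstar
  have h3 := uR_sq_gt
  have h4 := cos14_pos
  have h5 : Real.cos t < Real.cos tstar := by
    have h6 : 4 * Real.cos (Real.pi / 14) ^ 3 * Real.cos t <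
        4 * Real.cos (Real.pi / 14) ^ 3 * Real.cos tstar := by linarith
    exact lt_of_mul_lt_mul_left h6 (by positivity)
  have h6 : tstar ≤ t := by
    by_contra hcon
    rw [not_le] at hcon
    have h7 := Real.cos_le_cos_of_nonneg_of_le_pi ht0 ((abs_le.1 tstar_abs).2) hcon.le
    linarith
  exact hs tstar tstar_mem tstar_nonneg h6 ellipticAt_tstar

/-! ### Non-injectivity -/

/-- three involutions of a set with seven elements -/
def perm (f : Fin 7 → Fin 7) (h : ∀ x, f (f x) = x) : Equiv.Perm (Fin 7) := ⟨f, f, h, h⟩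

def pgen : Fin 3 → Equiv.Perm (Fin 7)
  | 0 => perm ![0, 6, 5, 4, 3, 2, 1] (by decide)
  | 1 => perm ![0, 2, 1, 4, 3, 6, 5] (by decide)
  | 2 => perm ![1, 0, 6, 3, 5, 4, 2] (by decide)

lemma prels_hold : ∀ r ∈ triangleRels 14 14 14, FreeGroup.lift pgen r = 1 := by
  intro r hr
  rcases hr with rfl | rfl | rfl | rfl | rfl | rfl
  · simp only [map_pow, FreeGroup.lift_apply_of]
    decide
  · simp only [map_pow, FreeGroup.lift_apply_of]
    decide
  · simp only [map_pow, FreeGroup.lift_apply_of]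
    decide
  · simp only [map_pow, map_mul, FreeGroup.lift_apply_of]
    decide
  · simp only [map_pow, map_mul, FreeGroup.lift_apply_of]
    decide
  · simp only [map_pow, map_mul, FreeGroup.lift_apply_of]
    decide

set_option maxRecDepth 100000 in
lemma WB_pow_ne : (WB 14 14 14) ^ 14 ≠ 1 := by
  intro h
  have h1 := congrArg (PresentedGroup.toGroup prels_hold) h
  have h2 : ∀ k : Fin 3, PresentedGroup.toGroup prels_hold (sigma k) = pgen k := fun k =>
    PresentedGroup.toGroup.of prels_hold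
  rw [map_pow, WB, map_mul, map_mul, h2, h2, h2, map_one] at h1
  revert h1
  decide

lemma rho_WB_pow : rho ((WB 14 14 14) ^ 14) = 1 := by
  rw [map_pow, rho_WB, ← QuotientGroup.mk_pow]
  apply (QuotientGroup.eq_one_iff _).2
  refine ⟨om ^ 2, ?_⟩
  have h1 := relWB
  rw [smul_pow] at h1
  have h2 : (om ^ 2) ^ 14 = om := by
    have := om_cube
    grind
  rw [h2] at h1
  have h3 : gprod (uR : ℂ) om [0, 1, 2] ^ 14 = om ^ 2 • (1 : Matrix (Fin 3) (Fin 3) ℂ) := by
    rw [← h1, smul_smul]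
    have h4 : om ^ 2 * om = 1 := by linear_combination om_cube
    rw [h4, one_smul]
  rw [mat_pow, mat_rprod, conj_pow_Nm, h3]
  simp [Nm_mul_inv]

lemma rho_not_injective : ¬ Function.Injective rho := by
  intro h
  apply WB_pow_ne
  apply h
  rw [rho_WB_pow, map_one]

/-! ### Discreteness -/

lemma continuous_mat : Continuous mat := Units.continuous_val.comp continuous_subtype_val

instance isClosed_scalars : IsClosed (scalars : Set U21) := by
  have h : (scalars : Set U21) = {A : U21 | mat A = (mat A 0 0) • (1 : Matrix (Fin 3) (Fin 3) ℂ)} := by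
    ext A
    constructor
    · rintro ⟨c, hc⟩
      have : mat A 0 0 = c := by rw [hc]; simp
      simp only [Set.mem_ofPred_eq]
      rw [this]
      exact hc
    · intro hA
      exact ⟨_, hA⟩
  rw [h]
  refine isClosed_eq continuous_mat ?_
  exact ((continuous_mat.matrix_elem 0 0)).smul continuous_const

/-- Every element of the image is the class of a product of the generating reflections. -/
lemma exists_rprod {g : PU21} (hg : g ∈ rho.range) :
    ∃ l : List (Fin 3), g = QuotientGroup.mk (rprod l) := by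
  obtain ⟨x, rfl⟩ := hg
  have hx : x ∈ Subgroup.closure (Set.range (PresentedGroup.of (rels := triangleRels 14 14 14))) := by
    rw [PresentedGroup.closure_range_of]
    trivial
  induction hx using Subgroup.closure_induction with
  | mem y hy =>
    obtain ⟨k, rfl⟩ := hy
    refine ⟨[k], ?_⟩
    have h1 : rprod [k] = refl (nv k) (herm_nv_self k) := by simp [rprod]
    rw [h1]
    exact rho_sigma k
  | one => exact ⟨[], by simp [rprod]⟩
  | mul y z _ _ hy hz =>
    obtain ⟨l, hl⟩ := hy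
    obtain ⟨l', hl'⟩ := hz
    exact ⟨l ++ l', by rw [map_mul, hl, hl', rprod_append]; rfl⟩
  | inv y _ hy =>
    obtain ⟨l, hl⟩ := hy
    refine ⟨l.reverse, ?_⟩
    have h1 : rprod l.reverse = (rprod l)⁻¹ := by
      clear hl
      induction l with
      | nil => simp [rprod]
      | cons k l ih =>
        have h2 : rprod [k] = refl (nv k) (herm_nv_self k) := by simp [rprod]
        have h3 : (refl (nv k) (herm_nv_self k))⁻¹ = refl (nv k) (herm_nv_self k) :=
          (eq_inv_of_mul_eq_one_left (refl_mul_self k)).symm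
        rw [List.reverse_cons, rprod_append, ih, h2, rprod_cons, _root_.mul_inv_rev, h3]
    rw [map_inv, hl, h1]
    rfl

/-- The open set of classes of matrices all of whose entries have modulus less than two. -/
def smallSet : Set PU21 :=
  (QuotientGroup.mk : U21 → PU21) '' {A : U21 | ∀ i j, ‖mat A i j‖ < 2}

lemma isOpen_smallSet : IsOpen smallSet := by
  apply QuotientGroup.isOpenMap_coe
  have h : {A : U21 | ∀ i j, ‖mat A i j‖ < 2} = ⋂ i, ⋂ j, {A : U21 | ‖mat A i j‖ < 2} := by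
    ext A
    simp
  rw [h]
  refine isOpen_iInter_of_finite fun i => isOpen_iInter_of_finite fun j => ?_
  exact isOpen_lt (continuous_mat.matrix_elem i j).norm continuous_const

lemma one_mem_smallSet : (1 : PU21) ∈ smallSet := by
  refine ⟨1, ?_, rfl⟩
  intro i j
  rw [mat_one, Matrix.one_apply]
  split_ifs <;> simp

lemma finite_small : (smallSet ∩ (rho.range : Set PU21)).Finite := by
  -- a bound for the entries of `N⁻¹ X N`
  obtain ⟨C, hC⟩ := (Set.finite_range fun p : Fin 3 × Fin 3 =>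
    ∑ b, (∑ a, ‖Nm⁻¹ p.1 a‖ * 2) * ‖Nm b p.2‖).bddAbove
  have hbound : ∀ (X : Matrix (Fin 3) (Fin 3) ℂ), (∀ i j, ‖X i j‖ < 2) →
      ∀ i j, ‖(Nm⁻¹ * X * Nm) i j‖ ≤ C := by
    intro X hX i j
    refine le_trans ?_ (hC ⟨(i, j), rfl⟩)
    rw [Matrix.mul_apply]
    refine (norm_sum_le _ _).trans (Finset.sum_le_sum fun b _ => ?_)
    rw [norm_mul]
    refine mul_le_mul_of_nonneg_right ?_ (norm_nonneg _)
    rw [Matrix.mul_apply]
    refine (norm_sum_le _ _).trans (Finset.sum_le_sum fun a _ => ?_)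
    rw [norm_mul]
    exact mul_le_mul_of_nonneg_left (hX a b).le (norm_nonneg _)
  have key : ∀ g ∈ smallSet ∩ (rho.range : Set PU21), ∃ l : List (Fin 3),
      g = QuotientGroup.mk (rprod l) ∧ ∀ i j, ‖gprod (uR : ℂ) om l i j‖ ≤ C := by
    rintro g ⟨⟨A, hA, hAg⟩, hg⟩
    obtain ⟨l, hl⟩ := exists_rprod hg
    refine ⟨l, hl, ?_⟩
    obtain ⟨s, hs⟩ := exists_smul_of_mk_eq (hAg.trans hl)
    have hs1 := norm_eq_one_of_smul hs
    rw [gprod_eq]
    apply hbound
    intro i j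
    have h1 : ‖mat A i j‖ = ‖mat (rprod l) i j‖ := by
      rw [hs, Matrix.smul_apply, smul_eq_mul, norm_mul, hs1, one_mul]
    rw [← h1]
    exact hA i j
  choose! lf hlf using key
  refine Set.Finite.of_finite_image (f := fun g => gprod (uR : ℂ) om (lf g)) ?_ ?_
  · refine (finite_gprod C).subset ?_
    rintro _ ⟨g, hg, rfl⟩
    exact ⟨lf g, rfl, (hlf g hg).2⟩
  · intro g hg g' hg' h
    rw [(hlf g hg).1, (hlf g' hg').1, rprod_eq_of_gprod_eq h]

lemma rho_discrete : DiscreteTopology rho.range := by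
  apply discreteTopology_of_isOpen_singleton_one
  have hfin : ((smallSet ∩ (rho.range : Set PU21)) \ {1}).Finite := finite_small.subset
    Set.sdiff_subset
  have hopen : IsOpen (smallSet \ ((smallSet ∩ (rho.range : Set PU21)) \ {1})) :=
    isOpen_smallSet.sdiff hfin.isClosed
  have h2 : ({1} : Set rho.range) =
      Subtype.val ⁻¹' (smallSet \ ((smallSet ∩ (rho.range : Set PU21)) \ {1})) := by
    ext g
    constructor
    · intro hg
      rw [Set.mem_singleton_iff] at hg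
      rw [hg]
      refine ⟨one_mem_smallSet, fun h => h.2 rfl⟩
    · rintro ⟨hg1, hg2⟩
      by_contra hne
      apply hg2
      refine ⟨⟨hg1, g.2⟩, fun h => hne ?_⟩
      exact Subtype.ext h
  rw [h2]
  exact hopen.preimage continuous_subtype_val

/-- **The type B part of the conjecture is false.**  The triple `(14,14,14)` has type B, and
there is a parameter `t` outside `I⁰_{14,14,14}` for which `ρ_t` has discrete and infinite
image and is not injective. -/
theorem result : IsTypeB 14 14 14 ∧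
    ∃ t ∈ paramSet 14 14 14, t ∉ paramSet0 14 14 14 ∧
      ∃ ρ : TriangleGroup 14 14 14 →* PU21, IsTriangleRep 14 14 14 t ρ ∧
        DiscreteTopology ρ.range ∧ (Set.range ρ).Infinite ∧ ¬ Function.Injective ρ :=
  ⟨typeB, tstar, tstar_mem, fun h => h.2.2 ellipticAt_tstar, rho, rho_isTriangleRep,
    rho_discrete, rho_range_infinite, rho_not_injective⟩

end Pool.Agent.Results.MP_068809_gt.TypeBCounterexample
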